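import Mathlib
import Pool.Agent.helper73.Nag.Num

set_option autoImplicit false

/-! The numerical part for the weighted plane. -/

namespace Pool.Agent.helper7.SC

open Pool.Agent.helper73.Nag

/-- the final contradiction; `s = √R`, `t = √N`, `D = w / √N` -/
lemma final_ineqN (R N b K S D s t : ℝ) (hs : s ^ 2 = R) (ht : t ^ 2 = N) (hN : 1 ≤ N)
    (ht0 : 0 < t) (hs0 : 0 < s) (hst : 24 * t < s) (hRN : 600 * N ≤ R) (hK0 : 0 ≤ K) (hb : 1 ≤ b)
    (hKb : K ^ 2 ≤ b) (hbt : 10 * N * b < R) (hS : R * b ≤ S)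
    (hD : R * D ^ 2 < S ^ 2)
    (h3 : S < 5 * t * D + 6 * N + 6 * N * ((b + K) ^ 2 + (b + K))) : False := by
  have hR : 0 < R := by rw [← hs]; positivity
  have hS0 : 0 ≤ S := le_trans (by positivity) hS
  have h1 : s * D < S := by
    apply lt_of_pow_lt_pow_left₀ 2 hS0
    calc (s * D) ^ 2 = R * D ^ 2 := by rw [← hs]; ring
      _ < S ^ 2 := hD
  have hKb' : K ≤ b := by
    by_contra hcon
    push Not at hcon
    nlinarith
  -- `(s - 5 t) S < 6 N s (1 + ...)`
  have h4 : (s - 5 * t) * S < s * (6 * N * (1 + (b + K) ^ 2 + (b + K))) := by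
    have e1 : 5 * t * (s * D) ≤ 5 * t * S := mul_le_mul_of_nonneg_left h1.le (by positivity)
    have e2 : s * S < s * (5 * t * D + 6 * N + 6 * N * ((b + K) ^ 2 + (b + K))) :=
      mul_lt_mul_of_pos_left h3 hs0
    linarith
  have h5 : (s - 5 * t) * (R * b) ≤ (s - 5 * t) * S := mul_le_mul_of_nonneg_left hS (by linarith)
  have h6 : (1 + (b + K) ^ 2 + (b + K)) ≤ (b + 2 * K + 4) * b := by nlinarith
  have h7 : (s - 5 * t) * R * b < s * (6 * N * (b + 2 * K + 4)) * b := by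
    have e1 : s * (6 * N * (1 + (b + K) ^ 2 + (b + K))) ≤ s * (6 * N * ((b + 2 * K + 4) * b)) :=
      mul_le_mul_of_nonneg_left (mul_le_mul_of_nonneg_left h6 (by positivity)) hs0.le
    calc (s - 5 * t) * R * b = (s - 5 * t) * (R * b) := by ring
      _ < s * (6 * N * ((b + 2 * K + 4) * b)) := by linarith
      _ = _ := by ring
  have h8 : (s - 5 * t) * R < s * (6 * N * (b + 2 * K + 4)) := lt_of_mul_lt_mul_right h7 (by linarith)
  -- divide by `s`
  have h9 : R - 5 * t * s < 6 * N * (b + 2 * K + 4) := by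
    have : s * (R - 5 * t * s) = (s - 5 * t) * R := by rw [← hs]; ring
    rw [← this] at h8
    exact lt_of_mul_lt_mul_left h8 hs0.le
  -- estimates
  have e1 : 6 * N * b ≤ 6 / 10 * R := by linarith
  -- `10 t² K² < s²`, so `3.16 t K ≤ s`
  have e2 : 316 / 100 * (t * K) < s := by
    apply lt_of_pow_lt_pow_left₀ 2 hs0.le
    have : (t * K) ^ 2 ≤ N * b := by
      rw [mul_pow, ht]
      exact mul_le_mul_of_nonneg_left hKb (by linarith)
    calc (316 / 100 * (t * K)) ^ 2 = (316 / 100) ^ 2 * (t * K) ^ 2 := by ring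
      _ ≤ (316 / 100) ^ 2 * (N * b) := mul_le_mul_of_nonneg_left this (by positivity)
      _ < s ^ 2 := by
        rw [hs]
        have : 0 ≤ N * b := by positivity
        linarith
  -- `s ≥ 24.49 t`
  have e3 : 2449 / 100 * t ≤ s := by
    apply le_of_sq_le_sq _ hs0.le
    calc (2449 / 100 * t) ^ 2 = (2449 / 100) ^ 2 * t ^ 2 := by ring
      _ = (2449 / 100) ^ 2 * N := by rw [ht]
      _ ≤ s ^ 2 := by rw [hs]; linarith
  have e4 : t * s ≤ 100 / 2449 * R := by
    rw [← hs]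
    nlinarith
  have e5 : 12 * N * K ≤ 12 * (100 / 316) * (t * s) := by
    have : N * K = t * (t * K) := by rw [← ht]; ring
    have h10 : t * (316 / 100 * (t * K)) ≤ t * s := mul_le_mul_of_nonneg_left e2.le ht0.le
    nlinarith
  have e6 : 24 * N ≤ 4 / 100 * R := by linarith
  have e7 : 5 * t * s + 12 * (100 / 316) * (t * s) ≤ (5 + 12 * (100 / 316)) * (100 / 2449 * R) := by
    have : 5 * t * s + 12 * (100 / 316) * (t * s) = (5 + 12 * (100 / 316)) * (t * s) := by ring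
    rw [this]
    exact mul_le_mul_of_nonneg_left e4 (by norm_num)
  have e8 : R < 6 * N * b + 12 * N * K + 24 * N + 5 * t * s := by
    have : 6 * N * (b + 2 * K + 4) = 6 * N * b + 12 * N * K + 24 * N := by ring
    linarith
  have e9 : (5 + 12 * (100 / 316)) * (100 / 2449 * R) ≤ 36 / 100 * R := by
    have : (5 + 12 * (100 / 316 : ℝ)) * (100 / 2449) ≤ 36 / 100 := by norm_num
    nlinarith
  linarith

theorem numericN (N r w : ℕ) (μ : Fin r → ℕ) (hN : 0 < N) (hr : 600 * N ≤ r) (hw : 0 < w)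
    (h1 : ∀ j, 0 < μ j → N * ∑ i, μ i ^ 2 ≤ w ^ 2 + N * μ j)
    (h2 : ∀ i j, μ i ≠ μ j → (N : ℤ) * ∑ k, (μ k : ℤ) ^ 2 ≤
      (w : ℤ) ^ 2 + N * ((μ i : ℤ) - μ j) ^ 2)
    (h3 : ∀ p M, w ≤ N * p → (∀ i, μ i ≤ M) →
      ∑ i, (μ i + 1).choose 2 < N * ((p + 2).choose 2 + 6 * (M + 1).choose 2)) :
    (1 - 10 * N / r ^ 2) * N * (∑ i, (μ i : ℝ)) ^ 2 ≤ r * (w : ℝ) ^ 2 := by
  classical
  by_contra hcon
  push Not at hcon
  have hN1 : (1 : ℝ) ≤ N := by exact_mod_cast hN
  have hN0 : (0 : ℝ) < N := by linarith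
  set κ : ℝ := 10 * N with hκdef
  have hκ : 10 ≤ κ := by rw [hκdef]; linarith
  set R : ℝ := (r : ℝ) with hR
  have hRN : 600 * (N : ℝ) ≤ R := by rw [hR]; exact_mod_cast hr
  set t : ℝ := √(N : ℝ) with ht
  have ht2 : t ^ 2 = N := Real.sq_sqrt hN0.le
  have ht0 : 0 < t := Real.sqrt_pos.mpr hN0
  set D : ℝ := (w : ℝ) / t with hD
  have hw1 : (1 : ℝ) ≤ w := by exact_mod_cast hw
  have hD2 : D ^ 2 = (w : ℝ) ^ 2 / N := by rw [hD, div_pow, ht2]
  have hND : N * D ^ 2 = (w : ℝ) ^ 2 := by rw [hD2]; field_simp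
  have htD : t * D = w := by rw [hD]; field_simp
  have hD0 : 0 < D := by rw [hD]; positivity
  have hND1 : 1 ≤ N * D ^ 2 := by
    rw [hND]
    nlinarith
  have hR17 : 600 ≤ R := by linarith
  have hr17 : 600 ≤ r := by
    rw [hR] at hR17
    exact_mod_cast hR17
  have hR0 : 0 < R := by linarith
  have hκR : 0 ≤ κ / R ^ 2 := by positivity
  have hs2 : √R ^ 2 = R := Real.sq_sqrt hR0.le
  have hs0 : 0 < √R := Real.sqrt_pos.mpr hR0
  have hst : 24 * t < √R := by
    apply lt_of_pow_lt_pow_left₀ 2 hs0.le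
    rw [mul_pow, ht2, hs2]
    linarith
  set S := ∑ i, (μ i : ℝ) with hS
  have hS0 : 0 ≤ S := Finset.sum_nonneg (fun i _ => by positivity)
  -- `R D² < (1 - κ / R²) S²`
  have hRDκ : R * D ^ 2 < (1 - κ / R ^ 2) * S ^ 2 := by
    have e1 : N * (R * D ^ 2) < N * ((1 - κ / R ^ 2) * S ^ 2) := by
      calc N * (R * D ^ 2) = R * (N * D ^ 2) := by ring
        _ = R * (w : ℝ) ^ 2 := by rw [hND]
        _ < (1 - κ / R ^ 2) * N * S ^ 2 := hcon
        _ = _ := by ring
    exact lt_of_mul_lt_mul_left e1 hN0.le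
  have hRD : R * D ^ 2 < S ^ 2 := by
    have : 0 ≤ κ / R ^ 2 * S ^ 2 := by positivity
    linarith
  have hRD' : D ^ 2 < S ^ 2 / R := by
    rw [lt_div_iff₀ hR0]
    linarith
  obtain ⟨i0, m, hm⟩ := almost_const (by omega : 5 ≤ r) μ (by
    intro i j hij
    have e1 := h2 i j hij
    have e2 : (N : ℝ) * (∑ k, (μ k : ℝ) ^ 2) ≤ (w : ℝ) ^ 2 + N * ((μ i : ℝ) - μ j) ^ 2 := by
      exact_mod_cast e1
    rw [← hND, ← mul_add] at e2
    have e3 := le_of_mul_le_mul_left e2 hN0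
    linarith)
  set n := μ i0 with hn
  have hsum : ∀ f : ℕ → ℝ, ∑ i, f (μ i) = (R - 1) * f m + f n := by
    intro f
    rw [← Finset.add_sum_erase _ _ (Finset.mem_univ i0)]
    have : ∀ i ∈ Finset.univ.erase i0, f (μ i) = f m := fun i hi => by
      rw [hm i (Finset.ne_of_mem_erase hi)]
    rw [Finset.sum_congr rfl this, Finset.sum_const, Finset.card_erase_of_mem (Finset.mem_univ _),
      Finset.card_univ, Fintype.card_fin, nsmul_eq_mul, Nat.cast_sub (by omega), Nat.cast_one, add_comm]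
  have hS1 : S = (R - 1) * m + n := hsum (fun x => (x : ℝ))
  have hS2 : ∑ i, (μ i : ℝ) ^ 2 = (R - 1) * (m : ℝ) ^ 2 + (n : ℝ) ^ 2 := hsum (fun x => (x : ℝ) ^ 2)
  have hxu : ∀ j, 0 < μ j → (R - 1) * (m : ℝ) ^ 2 + (n : ℝ) ^ 2 ≤ D ^ 2 + μ j := by
    intro j hj
    have e1 := h1 j hj
    have e2 : (N : ℝ) * (∑ i, (μ i : ℝ) ^ 2) ≤ (w : ℝ) ^ 2 + N * μ j := by
      exact_mod_cast e1
    rw [← hND, ← mul_add, hS2] at e2
    exact le_of_mul_le_mul_left e2 hN0
  -- another index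
  obtain ⟨j0, hj0⟩ := exists_avoid (by omega : 5 ≤ r) {i0} (by simp)
  rw [Finset.mem_singleton] at hj0
  have hj0m : μ j0 = m := hm j0 hj0
  have hSpos : 0 < S := by
    by_contra h0
    have : S = 0 := le_antisymm (not_lt.mp h0) hS0
    rw [this] at hRD
    nlinarith [mul_pos hR0 (by positivity : 0 < D ^ 2)]
  -- the basic inequality
  have hbasic : ∀ j, 0 < μ j → ((n : ℝ) - m) ^ 2 * (1 - 1 / R) + κ * S ^ 2 / R ^ 3 < μ j := by
    intro j hj
    have e1 := hxu j hj
    have e2 : R * D ^ 2 < S ^ 2 - κ / R ^ 2 * S ^ 2 := by linarith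
    have e3 : D ^ 2 < S ^ 2 / R - κ * S ^ 2 / R ^ 3 := by
      have : S ^ 2 / R - κ * S ^ 2 / R ^ 3 = (S ^ 2 - κ / R ^ 2 * S ^ 2) / R := by
        field_simp
      rw [this, lt_div_iff₀ hR0]
      linarith
    have e4 : (R - 1) * (m : ℝ) ^ 2 + (n : ℝ) ^ 2 = S ^ 2 / R + ((n : ℝ) - m) ^ 2 * (1 - 1 / R) := by
      rw [hS1]
      field_simp
      ring
    linarith
  rcases Nat.eq_zero_or_pos m with hm0 | hm0
  · -- only one point
    have hn0 : 0 < n := by
      by_contra h0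
      have : n = 0 := by omega
      rw [hS1, hm0, this] at hSpos
      simp at hSpos
    have e1 := hxu i0 (by rw [← hn]; exact hn0)
    rw [← hn, hm0] at e1
    rw [hS1, hm0] at hRD
    simp only [Nat.cast_zero, mul_zero, zero_add, ne_eq, OfNat.ofNat_ne_zero, not_false_eq_true,
      zero_pow] at e1 hRD
    have hn1 : (1 : ℝ) ≤ n := by exact_mod_cast hn0
    have e2 : R * ((n : ℝ) ^ 2 - n) < n ^ 2 := by nlinarith
    have e3 : (n : ℝ) < 2 := by
      by_contra hc
      push Not at hc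
      nlinarith [mul_nonneg (by linarith : (0:ℝ) ≤ R - 17) (by nlinarith : (0 : ℝ) ≤ (n : ℝ) ^ 2 - n)]
    have e4 : n < 2 := by exact_mod_cast e3
    have e5 : n = 1 := by omega
    rw [e5] at hRD
    simp only [Nat.cast_one, one_pow] at hRD
    have e6 : 1 ≤ R * D ^ 2 := by
      have : N * D ^ 2 ≤ R * D ^ 2 := mul_le_mul_of_nonneg_right (by linarith) (by positivity)
      linarith
    linarith
  have hm1 : (1 : ℝ) ≤ m := by exact_mod_cast hm0
  have hbm := hbasic j0 (by rw [hj0m]; exact hm0)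
  rw [hj0m] at hbm
  rcases Nat.eq_zero_or_pos n with hn0 | hn0
  · -- one point is missing
    rw [hS1, hn0] at hbm
    simp only [Nat.cast_zero, add_zero, zero_sub, neg_sq] at hbm
    have e1 : (m : ℝ) ^ 2 * ((1 - 1 / R) + κ * (R - 1) ^ 2 / R ^ 3) < m := by
      have : (m : ℝ) ^ 2 * ((1 - 1 / R) + κ * (R - 1) ^ 2 / R ^ 3) =
        (m : ℝ) ^ 2 * (1 - 1 / R) + κ * ((R - 1) * m) ^ 2 / R ^ 3 := by ring
      rw [this]; exact hbm
    have e2 : 1 ≤ (1 - 1 / R) + κ * (R - 1) ^ 2 / R ^ 3 := by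
      have : (1 - 1 / R) + κ * (R - 1) ^ 2 / R ^ 3 - 1 = (κ * (R - 1) ^ 2 - R ^ 2) / R ^ 3 := by
        field_simp
        ring
      have e3 : 0 ≤ (κ * (R - 1) ^ 2 - R ^ 2) / R ^ 3 := by
        apply div_nonneg _ (by positivity)
        nlinarith [mul_nonneg (by linarith : 0 ≤ κ - 5) (sq_nonneg (R - 1))]
      linarith
    nlinarith [mul_le_mul_of_nonneg_left e2 (by positivity : (0:ℝ) ≤ (m : ℝ) ^ 2)]
  have hn1 : (1 : ℝ) ≤ n := by exact_mod_cast hn0
  have hbn := hbasic i0 (by rw [← hn]; exact hn0)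
  rw [← hn] at hbn
  -- the general case
  have key : ∀ (b K : ℕ), 0 < b → (∀ i, μ i ≤ b + K) → R * b ≤ S → ((n : ℝ) - m) ^ 2 = (K : ℝ) ^ 2 →
      ((n : ℝ) - m) ^ 2 * (1 - 1 / R) + κ * S ^ 2 / R ^ 3 < b → False := by
    intro b K hb0 hM hSb hK hlt
    have hb1 : (1 : ℝ) ≤ b := by exact_mod_cast hb0
    rw [hK] at hlt
    have e1 : κ * S ^ 2 / R ^ 3 < b := by
      have : 0 ≤ (K : ℝ) ^ 2 * (1 - 1 / R) := by
        apply mul_nonneg (sq_nonneg _)
        rw [sub_nonneg, div_le_one hR0]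
        linarith
      linarith
    have e2 : κ * (b : ℝ) ^ 2 / R ≤ κ * S ^ 2 / R ^ 3 := by
      rw [div_le_div_iff₀ hR0 (by positivity)]
      have e3 : (R * b) ^ 2 ≤ S ^ 2 := pow_le_pow_left₀ (by positivity) hSb 2
      have e4 : κ * (b : ℝ) ^ 2 * R ^ 3 = κ * R * (R * b) ^ 2 := by ring
      have e5 : κ * S ^ 2 * R = κ * R * S ^ 2 := by ring
      rw [e4, e5]
      exact mul_le_mul_of_nonneg_left e3 (by positivity)
    have e3 : κ * (b : ℝ) ^ 2 < b * R := by
      have := lt_of_le_of_lt e2 e1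
      rwa [div_lt_iff₀ hR0] at this
    have e4 : κ * b < R := by
      have : b * (κ * b) < b * R := by linarith [show (b:ℝ) * (κ * b) = κ * (b : ℝ) ^ 2 by ring]
      exact lt_of_mul_lt_mul_left this (by linarith)
    have hKb : (K : ℝ) ^ 2 ≤ b := by
      by_contra hcon2
      push Not at hcon2
      have e5 : b < K ^ 2 := by exact_mod_cast hcon2
      have e6 : (b : ℝ) + 1 ≤ (K : ℝ) ^ 2 := by exact_mod_cast e5
      have e7 : (K : ℝ) ^ 2 * (1 - 1 / R) < b := by
        have : 0 ≤ κ * S ^ 2 / R ^ 3 := by positivity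
        linarith
      have e8 : ((b : ℝ) + 1) * (1 - 1 / R) < b := by
        have e9 : 0 ≤ 1 - 1 / R := by
          rw [sub_nonneg, div_le_one hR0]
          linarith
        exact lt_of_le_of_lt (mul_le_mul_of_nonneg_right e6 e9) e7
      have e9 : ((b : ℝ) + 1) * (R - 1) < b * R := by
        have : ((b : ℝ) + 1) * (1 - 1 / R) = ((b : ℝ) + 1) * (R - 1) / R := by
          field_simp
        rw [this, div_lt_iff₀ hR0] at e8
        exact e8
      nlinarith
    -- the integer `p`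
    set p : ℕ := (w + N - 1) / N with hp
    have hp1 : w ≤ N * p := by
      have := Nat.div_add_mod (w + N - 1) N
      have h2 := Nat.mod_lt (w + N - 1) hN
      rw [hp]
      omega
    have hp2 : N * p ≤ w + N := by
      have := Nat.div_mul_le_self (w + N - 1) N
      rw [hp, mul_comm]
      omega
    have hp3 : (N : ℝ) * p ≤ w + N := by exact_mod_cast hp2
    have hpc : (N : ℝ) * ((((p + 2).choose 2 : ℕ) : ℝ)) ≤ (D ^ 2 + 5 * t * D + 6 * N) / 2 := by
      rw [choose_real']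
      have e10 : (p : ℝ) ≤ D ^ 2 / w + 1 := by
        have : D ^ 2 / w = w / N := by
          rw [hD2]
          field_simp
        rw [this]
        have h5 : (p : ℝ) ≤ (w + N) / N := by
          rw [le_div_iff₀ hN0]
          linarith
        have h6 : ((w : ℝ) + N) / N = w / N + 1 := by field_simp
        linarith
      have e11 : D ^ 2 / w = w / N := by
        rw [hD2]
        field_simp
      rw [e11] at e10
      have e12 : (0 : ℝ) ≤ p := by positivity
      have e13 : (p : ℝ) ^ 2 + 3 * p + 2 ≤ (w / N + 2) * (w / N + 3) := by nlinarith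
      have e14 : (N : ℝ) * ((w / N + 2) * (w / N + 3)) = D ^ 2 + 5 * (t * D) + 6 * N := by
        rw [htD, hD2]
        field_simp
        ring
      have e15 := mul_le_mul_of_nonneg_left e13 hN0.le
      linarith
    have h4 := h3 p (b + K) hp1 hM
    have h5 : ∑ i, (((μ i + 1).choose 2 : ℕ) : ℝ) <
        N * ((((p + 2).choose 2 : ℕ) : ℝ) + 6 * (((b + K + 1).choose 2 : ℕ) : ℝ)) := by
      exact_mod_cast h4
    rw [mul_add] at h5
    rw [choose_real (b + K)] at h5
    simp only [choose_real] at h5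
    rw [← Finset.sum_div, Finset.sum_add_distrib, ← hS, hS2] at h5
    push_cast at h5
    have e10 : S ^ 2 / R ≤ (R - 1) * (m : ℝ) ^ 2 + (n : ℝ) ^ 2 := by
      have : (R - 1) * (m : ℝ) ^ 2 + (n : ℝ) ^ 2 =
          S ^ 2 / R + ((n : ℝ) - m) ^ 2 * (1 - 1 / R) := by
        rw [hS1]
        field_simp
        ring
      rw [this]
      have : 0 ≤ ((n : ℝ) - m) ^ 2 * (1 - 1 / R) := by
        apply mul_nonneg (sq_nonneg _)
        rw [sub_nonneg, div_le_one hR0]
        linarith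
      linarith
    have hpc2 : (N : ℝ) * ((((p : ℝ) + 1) ^ 2 + (p + 1)) / 2) ≤
        (D ^ 2 + 5 * t * D + 6 * N) / 2 := by
      rw [choose_real'] at hpc
      calc (N : ℝ) * ((((p : ℝ) + 1) ^ 2 + (p + 1)) / 2) =
          N * (((p : ℝ) ^ 2 + 3 * p + 2) / 2) := by ring
        _ ≤ _ := hpc
    have hfin : S < 5 * t * D + 6 * N + 6 * N * (((b : ℝ) + K) ^ 2 + (b + K)) := by
      have e16 : (N : ℝ) * (6 * ((((b : ℝ) + K) ^ 2 + (b + K)) / 2)) =
        (6 * N * (((b : ℝ) + K) ^ 2 + (b + K))) / 2 := by ring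
      rw [e16] at h5
      linarith
    exact final_ineqN R N b K S D (√R) t hs2 ht2 hN1 ht0 hs0 hst hRN (by positivity)
      hb1 hKb e4 hSb hRD hfin
  rcases Nat.le_total m n with hmn | hmn
  · obtain ⟨K, hK⟩ := Nat.exists_eq_add_of_le hmn
    refine key m K hm0 ?_ ?_ ?_ hbm
    · intro i
      by_cases hi : i = i0
      · rw [hi, ← hn, hK]
      · rw [hm i hi]; omega
    · rw [hS1, hK]
      push_cast
      have : (0 : ℝ) ≤ K := by positivity
      linarith
    · rw [hK]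
      push_cast
      ring
  · obtain ⟨K, hK⟩ := Nat.exists_eq_add_of_le hmn
    refine key n K hn0 ?_ ?_ ?_ hbn
    · intro i
      by_cases hi : i = i0
      · rw [hi, ← hn]; omega
      · rw [hm i hi]; omega
    · rw [hS1, hK]
      push_cast
      have : (0 : ℝ) ≤ K := by positivity
      nlinarith
    · rw [hK]
      push_cast
      ring

end Pool.Agent.helper7.SC
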