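import Pool.Agent.helper7.SC.Tri
import Pool.Agent.helper5.NBSGeneral
import Pool.Agent.helper73.Nag.Conv

set_option autoImplicit false

/-!
# Emptiness of linear systems on the weighted plane
-/

namespace Pool.Agent.helper7.SC

open MvPolynomial Pool.Agent.helper5.NBS Pool.Agent.helper89.Segre

lemma e2_inj {a b : ℕ × ℕ} (h : Pool.Agent.helper73.Nag.e2 a = Pool.Agent.helper73.Nag.e2 b) :
    a = b := by
  ext
  · rw [← Pool.Agent.helper73.Nag.e2_zero a, ← Pool.Agent.helper73.Nag.e2_zero b, h]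
  · rw [← Pool.Agent.helper73.Nag.e2_one a, ← Pool.Agent.helper73.Nag.e2_one b, h]

/-- Taylor coefficients as sums over the exponents -/
lemma coeff_trans_sum {D : Finset (ℕ × ℕ)} {F : R2}
    (hF : F.support ⊆ D.image Pool.Agent.helper73.Nag.e2) (q : Fin 2 → ℂ) (i j : ℕ) :
    coeff (Pool.Agent.helper73.Nag.e2 (i, j)) (trans q F) =
      ∑ e ∈ D, coeff (Pool.Agent.helper73.Nag.e2 e) F * (gg (q 0) e.1 i * gg (q 1) e.2 j) := by
  classical
  have h1 : F = ∑ e ∈ D, monomial (Pool.Agent.helper73.Nag.e2 e)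
      (coeff (Pool.Agent.helper73.Nag.e2 e) F) := by
    conv_lhs => rw [F.as_sum]
    rw [← Finset.sum_image (f := fun n => monomial n (coeff n F))
      (fun a _ b _ h => e2_inj h)]
    apply Finset.sum_subset hF
    intro n _ hn
    rw [notMem_support_iff.mp hn, monomial_zero]
  conv_lhs => rw [h1]
  rw [map_sum, coeff_sum]
  apply Finset.sum_congr rfl
  intro e _
  rw [Pool.Agent.helper73.Nag.coeff_trans_monomial, Pool.Agent.helper73.Nag.e2_zero,
    Pool.Agent.helper73.Nag.e2_one, Pool.Agent.helper73.Nag.e2_zero,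
    Pool.Agent.helper73.Nag.e2_one]

lemma pw_choose {s t : ℂ} (e : ℕ × ℕ) (i j : ℕ) :
    pw (s, t) e * ((e.1.choose i : ℕ) : ℂ) * ((e.2.choose j : ℕ) : ℂ) =
      (s ^ i * t ^ j) * (gg s e.1 i * gg t e.2 j) := by
  unfold pw gg
  rcases Nat.lt_or_ge e.1 i with h1 | h1
  · rw [Nat.choose_eq_zero_of_lt h1]; simp
  rcases Nat.lt_or_ge e.2 j with h2 | h2
  · rw [Nat.choose_eq_zero_of_lt h2]; simp
  have e1 : s ^ e.1 = s ^ i * s ^ (e.1 - i) := by rw [← pow_add]; congr 1; omega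
  have e2 : t ^ e.2 = t ^ j * t ^ (e.2 - j) := by rw [← pow_add]; congr 1; omega
  simp only
  rw [e1, e2]; ring

/-- from full rank to emptiness at general points -/
lemma generic_of_good' {D : Finset (ℕ × ℕ)} {r : ℕ} {m : Fin r → ℕ}
    (hg : Good ℂ D (Finset.univ.val.map m) D.card) :
    ∃ Q : PtRing r, Q ≠ 0 ∧ ∀ q : Fin r → Fin 2 → ℂ, evP q Q ≠ 0 → ∀ F : R2,
      F.support ⊆ D.image Pool.Agent.helper73.Nag.e2 → (∀ i, F ∈ ptIdeal (q i) ^ m i) → F = 0 := by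
  classical
  obtain ⟨L, hL1, hL2, hL3⟩ := hg
  have hkr := hL3.kr_eq_bot
  obtain ⟨ps, hps1, hps2⟩ := exists_assignment m Finset.univ L hL1
  have key : ∀ F : R2, F.support ⊆ D.image Pool.Agent.helper73.Nag.e2 →
      (∀ i, F ∈ ptIdeal (![(ps i).1, (ps i).2] : Fin 2 → ℂ) ^ m i) → F = 0 := by
    intro F hF hm
    have hc : (fun e : ℕ × ℕ => if e ∈ D then coeff (Pool.Agent.helper73.Nag.e2 e) F else 0) ∈
        Kr D L := by
      rw [mem_Kr_iff]
      refine ⟨fun e he => if_neg he, ?_⟩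
      rintro x hx ⟨i, j⟩ hij
      obtain ⟨k, _, hk1, hk2⟩ := hps1 x hx
      have h1 := mem_ptIdeal_pow.mp (hm k) (Pool.Agent.helper73.Nag.e2 (i, j)) (by
        rw [mem_idx] at hij
        rw [degree_eq, Pool.Agent.helper73.Nag.e2_zero, Pool.Agent.helper73.Nag.e2_one, hk2]
        exact hij)
      rw [coeff_trans_sum hF] at h1
      simp only [Matrix.cons_val_zero, Matrix.cons_val_one] at h1
      have h2 : ∑ e ∈ D, (if e ∈ D then coeff (Pool.Agent.helper73.Nag.e2 e) F else 0) *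
          (pw x.1 e * ((e.1.choose i : ℕ) : ℂ) * ((e.2.choose j : ℕ) : ℂ)) =
          (x.1.1 ^ i * x.1.2 ^ j) * ∑ e ∈ D, coeff (Pool.Agent.helper73.Nag.e2 e) F *
            (gg (ps k).1 e.1 i * gg (ps k).2 e.2 j) := by
        rw [Finset.mul_sum]
        apply Finset.sum_congr rfl
        intro e he
        rw [if_pos he, hk1, pw_choose (s := x.1.1) (t := x.1.2)]
        ring
      simp only
      rw [h2, h1, mul_zero]
    rw [hkr, Submodule.mem_bot] at hc
    ext n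
    rw [coeff_zero]
    by_contra h0
    obtain ⟨e, he, hen⟩ := Finset.mem_image.mp (hF (mem_support_iff.mpr h0))
    have h1 := congrFun hc e
    simp only [if_pos he, Pi.zero_apply, hen] at h1
    exact h0 h1
  have hex : ∀ D' ∈ (D.image Pool.Agent.helper73.Nag.e2).powerset, ∃ Φ : PtRing r, Φ ≠ 0 ∧
      ∀ p : Fin r → Fin 2 → ℂ, evP p Φ ≠ 0 →
      ∀ F : R2, F.support = D' → (∀ i, F ∈ ptIdeal (p i) ^ m i) → F = 0 := by
    intro D' hD'
    exact exists_minor D' m (fun i => ![(ps i).1, (ps i).2])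
      (fun F hF hm => key F (hF.trans (Finset.mem_powerset.mp hD')) hm)
  choose! Φ hΦ0 hΦ using hex
  refine ⟨∏ D' ∈ (D.image Pool.Agent.helper73.Nag.e2).powerset, Φ D',
    Finset.prod_ne_zero_iff.mpr hΦ0, ?_⟩
  intro q hq F hF hm
  rw [map_prod, Finset.prod_ne_zero_iff] at hq
  exact hΦ F.support (Finset.mem_powerset.mpr hF) q (hq _ (Finset.mem_powerset.mpr hF)) F rfl hm

theorem wempty (N p M r : ℕ) (hN : 0 < N) (m : Fin r → ℕ) (hm : ∀ i, m i ≤ M)
    (hsum : N * ((p + 2).choose 2 + 6 * (M + 1).choose 2) ≤ ∑ i, (m i + 1).choose 2) :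
    ∃ Q : PtRing r, Q ≠ 0 ∧ ∀ q : Fin r → Fin 2 → ℂ, evP q Q ≠ 0 → ∀ F : R2,
      wdeg N F ≤ N * p → (∀ i, F ∈ ptIdeal (q i) ^ m i) → F = 0 := by
  classical
  obtain ⟨k, rfl⟩ : ∃ k, N = k + 1 := ⟨N - 1, by omega⟩
  have hg := good_reg (p := p) (M := M) k (Finset.univ.val.map m) (by
    intro x hx
    obtain ⟨i, _, rfl⟩ := Multiset.mem_map.mp hx
    exact hm i) (by
    rw [sumkk_eq, card_tri]
    exact hsum)
  obtain ⟨Q, hQ0, hQ⟩ := generic_of_good' hg
  refine ⟨Q, hQ0, fun q hq F hF hFm => hQ q hq F ?_ hFm⟩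
  intro n hn
  rw [Finset.mem_image]
  refine ⟨(n 0, n 1), ?_, Pool.Agent.helper73.Nag.e2_eq n⟩
  rw [mem_reg]
  simp only
  have h1 : n 0 + (k + 1) * n 1 ≤ wdeg (k + 1) F :=
    Finset.le_sup (f := fun n : Fin 2 →₀ ℕ => n 0 + (k + 1) * n 1) hn
  have h2 : n 1 ≤ p := by
    by_contra h3
    have h4 : (k + 1) * (p + 1) ≤ (k + 1) * n 1 := Nat.mul_le_mul_left _ (by omega)
    have h5 : (k + 1) * (p + 1) = (k + 1) * p + (k + 1) := by ring
    omega
  refine ⟨h2, ?_⟩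
  have h6 : (k + 1) * n 1 + (k + 1) * (p - n 1) = (k + 1) * p := by
    rw [← Nat.mul_add]; congr 1; omega
  omega

end Pool.Agent.helper7.SC
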