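import Pool.Agent.helper7.SC.Asm
import Pool.Agent.helper7.SC.Wempty
import Pool.Agent.helper7.SC.NumN

set_option autoImplicit false

/-!
# The bound on the weighted plane and on all polarised surfaces
-/

namespace Pool.Agent.helper7.SC

open MvPolynomial Pool.Agent.helper5.NBS Pool.Agent.helper89.Segre

lemma wdeg_pos {N : ℕ} (hN : 0 < N) {F : R2} (hF : Irreducible F) : 0 < wdeg N F := by
  rw [Nat.pos_iff_ne_zero]
  intro h0
  obtain ⟨c, rfl⟩ := Pool.Agent.helper22.SC.eq_C_of_wdegN hN h0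
  by_cases hc : c = 0
  · exact hF.ne_zero (by rw [hc, C_0])
  · exact hF.not_isUnit ((isUnit_iff_ne_zero.mpr hc).map C)

/-- the bound on the weighted plane `ℙ(1,1,N)` at `r` very general points -/
theorem weighted_bound (N r : ℕ) (hN : 0 < N) (hr : 600 * N ≤ r) :
    ∃ T : Set (PtRing r), T.Countable ∧ (∀ Q ∈ T, Q ≠ 0) ∧ ∀ q : Fin r → Fin 2 → ℂ,
      (∀ Q ∈ T, evP q Q ≠ 0) → Function.Injective q ∧ ∀ F : R2, Irreducible F →
        (1 - 10 * N / r ^ 2) * N * (smult q F : ℝ) ^ 2 ≤ r * (wdeg N F : ℝ) ^ 2 := by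
  classical
  obtain ⟨T0, hT0, hT0', hq0⟩ := wxu N r hN
  have hex : ∀ x : ℕ × ℕ × (Fin r → ℕ), ∃ Q : PtRing r, Q ≠ 0 ∧ ((∀ i, x.2.2 i ≤ x.2.1) →
      N * ((x.1 + 2).choose 2 + 6 * (x.2.1 + 1).choose 2) ≤ ∑ i, (x.2.2 i + 1).choose 2 →
      ∀ q : Fin r → Fin 2 → ℂ, evP q Q ≠ 0 → ∀ F : R2,
        wdeg N F ≤ N * x.1 → (∀ i, F ∈ ptIdeal (q i) ^ x.2.2 i) → F = 0) := by
    rintro ⟨p, M, m⟩
    by_cases h : (∀ i, m i ≤ M) ∧
        N * ((p + 2).choose 2 + 6 * (M + 1).choose 2) ≤ ∑ i, (m i + 1).choose 2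
    · obtain ⟨Q, hQ0, hQ⟩ := wempty N p M r hN m h.1 h.2
      exact ⟨Q, hQ0, fun _ _ => hQ⟩
    · exact ⟨1, one_ne_zero, fun h1 h2 => absurd ⟨h1, h2⟩ h⟩
  choose Q hQ0 hQ using hex
  refine ⟨T0 ∪ Set.range Q, hT0.union (Set.countable_range _), ?_, ?_⟩
  · rintro P (hP | ⟨x, rfl⟩)
    · exact hT0' P hP
    · exact hQ0 x
  · intro q hq
    obtain ⟨hinj, hxu⟩ := hq0 q (fun P hP => hq P (Or.inl hP))
    refine ⟨hinj, fun F hF => ?_⟩
    obtain ⟨h1, h2⟩ := hxu F hF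
    have := numericN N r (wdeg N F) (fun i => mult (q i) F) hN hr (wdeg_pos hN hF) h1
      (fun i j hij => h2 i j hij) (by
        intro p M hp hM
        by_contra hcon
        push Not at hcon
        have h3 := hQ (p, M, fun i => mult (q i) F) hM hcon q (hq _ (Or.inr ⟨_, rfl⟩)) F hp
          (fun i => (mem_pow_iff_le_mult hF.ne_zero).mpr le_rfl)
        exact hF.ne_zero h3)
    rw [smult]
    push_cast
    exact this

/-- **Main theorem**, for coordinate rings. -/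
theorem main {R : Type} [CommRing R] [IsDomain R] [Algebra ℂ R] {n : ℕ} {x : Fin n → R}
    {N : ℕ} (hN : 0 < N) {h v : R} {ε : R →ₐ[ℂ] ℂ} (S : Surf x N h v ε) {r : ℕ}
    (hr : 600 * N ≤ r) :
    ∃ T : Set (MvPolynomial (Fin r × Fin n) ℂ), T.Countable ∧
      (∀ g ∈ T, ∃ p : Fin r → Fin n → ℂ, (∀ i, OnU x (p i)) ∧ eval (fun il => p il.1 il.2) g ≠ 0) ∧
      ∀ p : Fin r → Fin n → ℂ, (∀ i, OnU x (p i)) →
        (∀ g ∈ T, eval (fun il => p il.1 il.2) g ≠ 0) →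
        ∀ P : Ideal R, P.IsPrime → ¬ P.IsMaximal → ∀ μ : Fin r → ℕ,
          (∀ i, P ≤ mp x (p i) ^ μ i) → ∀ e c : ℝ, (∀ s, (hilb x P s : ℝ) ≤ e * s + c) →
            (1 - 10 * N / r ^ 2) * N * (∑ i, (μ i : ℝ)) ^ 2 ≤ r * e ^ 2 := by
  have hN1 : (1 : ℝ) ≤ N := by exact_mod_cast hN
  have hrN : 600 * (N : ℝ) ≤ r := by exact_mod_cast hr
  have hr0 : (0 : ℝ) < r := by linarith
  have hA : (0 : ℝ) < 1 - 10 * N / r ^ 2 := by
    rw [sub_pos, div_lt_one (by positivity)]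
    nlinarith
  set A : ℝ := (1 - 10 * N / r ^ 2) * N / r with hAdef
  have hA0 : 0 < A := by positivity
  obtain ⟨T0, hT0, hT0', hq⟩ := weighted_bound N r hN hr
  obtain ⟨T, h1, h2, h3⟩ := comparison hN S T0 hT0 hT0' (fun q hq' => (hq q hq').1) (√A)
    (Real.sqrt_pos.mpr hA0) (by
      rw [Real.sq_sqrt hA0.le, hAdef]
      have : (r : ℝ) * ((1 - 10 * N / r ^ 2) * N / r) = (1 - 10 * N / r ^ 2) * N := by
        field_simp
      rw [this]
      have h5 : (0 : ℝ) ≤ 10 * N / r ^ 2 := by positivity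
      nlinarith) (by
      intro q hq' F hF
      have h5 := (hq q hq').2 F hF
      have h6 : (√A * smult q F) ^ 2 ≤ (wdeg N F : ℝ) ^ 2 := by
        rw [mul_pow, Real.sq_sqrt hA0.le, hAdef, div_mul_eq_mul_div, div_le_iff₀ hr0]
        linarith
      exact le_of_sq_le_sq h6 (by positivity))
  refine ⟨T, h1, h2, fun p hp hT P hP hPm μ hμ e c hh => ?_⟩
  have h5 := h3 p hp hT P hP hPm μ hμ e c hh
  have h6 : 0 ≤ √A * ∑ i, (μ i : ℝ) :=
    mul_nonneg (Real.sqrt_nonneg _) (Finset.sum_nonneg fun i _ => by positivity)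
  have h7 : (√A * ∑ i, (μ i : ℝ)) ^ 2 ≤ e ^ 2 := pow_le_pow_left₀ h6 h5 2
  rw [mul_pow, Real.sq_sqrt hA0.le, hAdef, div_mul_eq_mul_div, div_le_iff₀ hr0] at h7
  linarith

end Pool.Agent.helper7.SC
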