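import Pool.Agent.helper5.NBSSesh

set_option autoImplicit false

/-!
# Seshadri constants at very general points: definitions for the comparison theorem

`R` is the coordinate ring of an affine surface `U ⊆ 𝔸ⁿ` with coordinates `x : Fin n → R`;
its projective closure is the surface `Y`, and `W x s` is the space of functions of degree at most
`s` (sections of `O(s)`).
-/

namespace Pool.Agent.helper7.SC

open MvPolynomial Pool.Agent.helper5.NBS

section ring

variable {R : Type} [CommRing R] [Algebra ℂ R] {n : ℕ}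

/-- functions of degree at most `s` -/
noncomputable def W (x : Fin n → R) (s : ℕ) : Submodule ℂ R :=
  (restrictTotalDegree (Fin n) ℂ s).map (aeval x).toLinearMap

/-- Hilbert function of `R ⧸ P` -/
noncomputable def hilb (x : Fin n → R) (P : Ideal R) (s : ℕ) : ℕ :=
  Module.finrank ℂ ((W x s).map (Ideal.Quotient.mkₐ ℂ P).toLinearMap)

/-- the ideal of the point with coordinates `p` -/
noncomputable def mp (x : Fin n → R) (p : Fin n → ℂ) : Ideal R :=
  Ideal.span (Set.range fun l => x l - algebraMap ℂ R (p l))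

/-- `p` is a point of `U` -/
def OnU (x : Fin n → R) (p : Fin n → ℂ) : Prop := ∀ f : MvPolynomial (Fin n) ℂ,
  aeval x f = 0 → eval p f = 0

/-- functions of degree at most `a` which vanish to order at least `M` at every point -/
noncomputable def Lsys (x : Fin n → R) (a : ℕ) {r : ℕ} (m : Fin r → Ideal R) (M : ℕ) :
    Submodule ℂ R := W x a ⊓ ⨅ i, (m i ^ M).restrictScalars ℂ

/-- an affine surface `U ⊆ 𝔸ⁿ` whose projective closure has degree `N`, with an integral
hyperplane section `h = 0` and a smooth point of this section at which `v` is a coordinate of it -/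
structure Surf (x : Fin n → R) (N : ℕ) (h v : R) (ε : R →ₐ[ℂ] ℂ) : Prop where
  gen : Algebra.adjoin ℂ (Set.range x) = ⊤
  growth : ∃ c : ℤ, ∀ s : ℕ, |2 * (Module.finrank ℂ (W x s) : ℤ) - N * (s : ℤ) ^ 2| ≤ c * (s + 1)
  hW : h ∈ W x 1
  h0 : h ≠ 0
  prime : (Ideal.span {h}).IsPrime
  sat : ∃ s0 : ℕ, ∀ s, s0 ≤ s → ∀ F, h * F ∈ W x (s + 1) → F ∈ W x s
  eh : ε h = 0
  ev : ε v = 0
  smooth : RingHom.ker ε ≤ Ideal.span {h, v} ⊔ RingHom.ker ε ^ 2

end ring

/-- plane polynomials of weighted degree at most `s` (the second variable has weight `N`) which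
vanish to order at least `M` at the points `q i` -/
noncomputable def Vsys (N s M : ℕ) {r : ℕ} (q : Fin r → Fin 2 → ℂ) : Submodule ℂ R2 :=
  restrictSupport ℂ {n : Fin 2 →₀ ℕ | n 0 + N * n 1 ≤ s} ⊓
    ⨅ i, (ptIdeal (q i) ^ M).restrictScalars ℂ

/-- partial derivatives of power series -/
noncomputable def pd (k : Fin 2) (Φ : MvPowerSeries (Fin 2) ℂ) : MvPowerSeries (Fin 2) ℂ :=
  fun n => ((n k : ℂ) + 1) * MvPowerSeries.coeff (n + Finsupp.single k 1) Φ

end Pool.Agent.helper7.SC
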