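import Pool.Agent.helper22.SC.WXU
import Pool.Agent.helper25.SC.MIN
import Pool.Agent.helper25.SC.VAN
import Pool.Agent.helper26.SC.TAU
import Pool.Agent.helper41.SC.NEF
import Pool.Agent.helper41.SC.WORD
import Pool.Agent.helper42.SC.ALG
import Pool.Agent.helper75.SC.EX
import Pool.Agent.helper82.SC.SEM
import Pool.Agent.helper82.SC.SMAP
import Pool.Agent.helper85.SC.DER

set_option autoImplicit false

/-!
# Assembly: the comparison theorem
-/

namespace Pool.Agent.helper7.SC

open MvPolynomial Pool.Agent.helper5.NBS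

section

variable {R : Type} [CommRing R] [Algebra ℂ R] {n : ℕ}

lemma exists_lift {x : Fin n → R} (hx : Algebra.adjoin ℂ (Set.range x) = ⊤) (F : R) :
    ∃ f : MvPolynomial (Fin n) ℂ, aeval x f = F := by
  have h1 : F ∈ (aeval (R := ℂ) x).range := by
    rw [← Algebra.adjoin_range_eq_range_aeval, hx]
    exact Algebra.mem_top
  exact h1

lemma noeth {x : Fin n → R} (hx : Algebra.adjoin ℂ (Set.range x) = ⊤) : IsNoetherianRing R :=
  isNoetherianRing_of_surjective (MvPolynomial (Fin n) ℂ) R (aeval (R := ℂ) x).toRingHom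
    (fun F => exists_lift hx F)

/-- the homomorphism of a point -/
lemma exists_hom {x : Fin n → R} (hx : Algebra.adjoin ℂ (Set.range x) = ⊤) {p : Fin n → ℂ}
    (hp : OnU x p) : ∃ ε : R →ₐ[ℂ] ℂ, (∀ f, ε (aeval x f) = eval p f) ∧
      RingHom.ker ε = mp x p := by
  have hsurj : Function.Surjective (aeval (R := ℂ) x) := fun F => exists_lift hx F
  have hker : ∀ f, aeval (R := ℂ) x f = 0 → (aeval p : MvPolynomial (Fin n) ℂ →ₐ[ℂ] ℂ) f = 0 := by
    intro f hf
    rw [aeval_eq_eval]
    exact hp f hf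
  let ε : R →ₐ[ℂ] ℂ := AlgHom.liftOfSurjective (aeval (R := ℂ) x) hsurj (aeval p) hker
  have hε : ∀ f, ε (aeval x f) = eval p f := by
    intro f
    rw [← aeval_eq_eval]
    exact AlgHom.liftOfSurjective_apply _ _ _ _ _
  refine ⟨ε, hε, ?_⟩
  have hεx : ∀ l, ε (x l) = p l := by
    intro l
    have := hε (X l)
    rwa [aeval_X, eval_X] at this
  apply le_antisymm
  · -- every element of the kernel is in `mp`
    have key : ∀ f : MvPolynomial (Fin n) ℂ,
        aeval x f - algebraMap ℂ R (eval p f) ∈ mp x p := by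
      intro f
      induction f using MvPolynomial.induction_on with
      | C a => simp
      | add f g hf hg =>
        have : aeval x (f + g) - algebraMap ℂ R (eval p (f + g)) =
            (aeval x f - algebraMap ℂ R (eval p f)) + (aeval x g - algebraMap ℂ R (eval p g)) := by
          rw [map_add, map_add, map_add]; ring
        rw [this]
        exact Ideal.add_mem _ hf hg
      | mul_X f l hf =>
        have : aeval x (f * X l) - algebraMap ℂ R (eval p (f * X l)) =
            x l * (aeval x f - algebraMap ℂ R (eval p f)) +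
              algebraMap ℂ R (eval p f) * (x l - algebraMap ℂ R (p l)) := by
          rw [map_mul, map_mul, map_mul, aeval_X, eval_X]; ring
        rw [this]
        exact Ideal.add_mem _ (Ideal.mul_mem_left _ _ hf)
          (Ideal.mul_mem_left _ _ (Ideal.subset_span ⟨l, rfl⟩))
    intro F hF
    obtain ⟨f, rfl⟩ := exists_lift hx F
    have h1 := key f
    have h2 : eval p f = 0 := by
      rw [← hε f]
      exact hF
    rw [h2, map_zero, sub_zero] at h1
    exact h1
  · rw [mp, Ideal.span_le]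
    rintro _ ⟨l, rfl⟩
    show ε (x l - algebraMap ℂ R (p l)) = 0
    rw [map_sub, hεx, AlgHom.commutes]
    simp

lemma ker_isMaximal (ε : R →ₐ[ℂ] ℂ) : (RingHom.ker ε).IsMaximal :=
  RingHom.ker_isMaximal_of_surjective ε (fun c => ⟨algebraMap ℂ R c, by simp⟩)

lemma hilb_nonneg_slope {x : Fin n → R} {P : Ideal R} {e c : ℝ}
    (h : ∀ s, (hilb x P s : ℝ) ≤ e * s + c) : 0 ≤ e := by
  by_contra hneg
  push Not at hneg
  obtain ⟨s, hs⟩ := exists_nat_gt (c / (-e))
  have h1 := h s
  have h2 : (0 : ℝ) ≤ hilb x P s := by positivity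
  have h3 : c < s * (-e) := by rwa [div_lt_iff₀ (by linarith)] at hs
  linarith

end

/-- **Comparison theorem.** -/
theorem comparison {R : Type} [CommRing R] [IsDomain R] [Algebra ℂ R] {n : ℕ} {x : Fin n → R}
    {N : ℕ} (hN : 0 < N) {h v : R} {ε : R →ₐ[ℂ] ℂ} (S : Surf x N h v ε) {r : ℕ}
    (T0 : Set (PtRing r)) (hT0 : T0.Countable) (hT0' : ∀ Q ∈ T0, Q ≠ 0)
    (hinj : ∀ q : Fin r → Fin 2 → ℂ, (∀ Q ∈ T0, evP q Q ≠ 0) → Function.Injective q)
    (ε1 : ℝ) (hε0 : 0 < ε1) (hε1 : r * ε1 ^ 2 ≤ N)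
    (hnef : ∀ q : Fin r → Fin 2 → ℂ, (∀ Q ∈ T0, evP q Q ≠ 0) → ∀ F : R2, Irreducible F →
      ε1 * smult q F ≤ wdeg N F) :
    ∃ T : Set (MvPolynomial (Fin r × Fin n) ℂ), T.Countable ∧
      (∀ g ∈ T, ∃ p : Fin r → Fin n → ℂ, (∀ i, OnU x (p i)) ∧ eval (fun il => p il.1 il.2) g ≠ 0) ∧
      ∀ p : Fin r → Fin n → ℂ, (∀ i, OnU x (p i)) →
        (∀ g ∈ T, eval (fun il => p il.1 il.2) g ≠ 0) →
        ∀ P : Ideal R, P.IsPrime → ¬ P.IsMaximal → ∀ μ : Fin r → ℕ,
          (∀ i, P ≤ mp x (p i) ^ μ i) → ∀ e c : ℝ, (∀ s, (hilb x P s : ℝ) ≤ e * s + c) →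
            ε1 * ∑ i, (μ i : ℝ) ≤ e := by
  classical
  have hx := S.gen
  have hnoeth : IsNoetherianRing R := noeth hx
  obtain ⟨τ, hτ, hτv, hτh⟩ := exists_tau ε h v S.eh S.ev S.smooth S.prime S.h0 (not_mem_h hN S)
  obtain ⟨c0, hord⟩ := w_order hN S τ hτ hτv hτh
  choose g hg hg' using fun l => exists_rel S τ hτ hτv hτh (x l)
  obtain ⟨δ, E, hδ, hE, hEm⟩ := exists_ops hx τ hτ hτv hτh g hg hg'
  obtain ⟨SS, hSS⟩ := exists_S N hN
  -- a nonzero component of `τ δ`
  have hSδ : ∃ s, PowerSeries.coeff s (SS (τ δ)) ≠ 0 := by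
    by_contra hcon
    push Not at hcon
    apply hδ
    apply hτ
    rw [map_zero]
    ext k
    have h1 := hSS (τ δ) (k 0 + N * k 1) k
    rw [hcon, if_pos rfl, coeff_zero] at h1
    rw [← h1, map_zero]
  obtain ⟨s0, hs0⟩ := hSδ
  set cδ : R2 := PowerSeries.coeff s0 (SS (τ δ)) with hcδ
  let T1 : Set (PtRing r) := Set.range fun i : Fin r => rename (fun l => (i, l)) cδ
  obtain ⟨Pq, hPq⟩ := exists_avoid (T0 ∪ T1) (hT0.union (Set.countable_range _)) (by
    rintro f (hf | ⟨i, rfl⟩)
    · exact hT0' f hf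
    · intro h0
      apply hs0
      have hinj' : Function.Injective fun l : Fin 2 => ((i, l) : Fin r × Fin 2) := by
        intro a b hab
        simpa using hab
      apply rename_injective _ hinj'
      rw [map_zero]
      exact h0)
  let q : Fin r → Fin 2 → ℂ := fun i l => Pq (i, l)
  have hevq : ∀ f : PtRing r, evP q f = eval Pq f := by
    intro f
    rw [evP]
  have hqT0 : ∀ Q ∈ T0, evP q Q ≠ 0 := fun Q hQ => by
    rw [hevq]; exact hPq Q (Or.inl hQ)
  have hq : ∀ i, PowerSeries.map (eval (q i)) (SS (τ δ)) ≠ 0 := by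
    intro i h0
    have h1 := hPq _ (Or.inr ⟨i, rfl⟩)
    apply h1
    simp only
    rw [eval_rename]
    have h2 := congrArg (PowerSeries.coeff s0) h0
    rw [PowerSeries.coeff_map, map_zero] at h2
    exact h2
  have hqinj := hinj q hqT0
  have hqnef := hnef q hqT0
  choose G hG1 hG2 using fun aM : ℕ × ℕ =>
    semicont hx N hN τ hτ c0 hord δ E hE hEm SS hSS q hq aM.1 aM.2
  choose d hd using fun l => exists_lift hx (aeval ![v, h, x l] (pderiv 2 (g l)))
  let T2 : Set (MvPolynomial (Fin r × Fin n) ℂ) := Set.range G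
  let T3 : Set (MvPolynomial (Fin r × Fin n) ℂ) :=
    Set.range fun il : Fin r × Fin n => rename (fun l => (il.1, l)) (d il.2)
  refine ⟨T2 ∪ T3, (Set.countable_range _).union (Set.countable_range _), ?_, ?_⟩
  · rintro f (⟨aM, rfl⟩ | ⟨il, rfl⟩)
    · exact hG1 aM
    · by_contra hcon
      push Not at hcon
      let Θ : MvPolynomial (Fin r × Fin n) ℂ →ₐ[ℂ] R := aeval fun il => x il.2
      have h1 := eval_zero_of_vanishing x Θ (by
        intro i f hf
        simp only [Θ]
        rw [aeval_rename]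
        exact hf) (rename (fun l => (il.1, l)) (d il.2)) hcon
      simp only [Θ] at h1
      rw [aeval_rename] at h1
      have h2 : ((fun il : Fin r × Fin n => x il.2) ∘ fun l => (il.1, l)) = x := rfl
      rw [h2, hd] at h1
      exact hg' _ h1
  · intro p hp hpT P hP hPmax μ hμ e c hhilb
    have he0 : 0 ≤ e := hilb_nonneg_slope hhilb
    by_contra hcon
    push Not at hcon
    set Sμ : ℝ := ∑ i, (μ i : ℝ) with hSm
    have hSm0 : 0 < Sμ := by
      by_contra h0
      push Not at h0
      have : ε1 * Sμ ≤ 0 := mul_nonpos_of_nonneg_of_nonpos hε0.le h0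
      linarith
    have hr : 0 < r := by
      rcases Nat.eq_zero_or_pos r with h0 | h0
      · subst h0
        simp [hSm] at hSm0
      · exact h0
    -- the homomorphisms of the points
    choose εp hεp hker using fun i => exists_hom hx (hp i)
    have hmax : ∀ i, (mp x (p i)).IsMaximal := fun i => hker i ▸ ker_isMaximal (εp i)
    have hres : ∀ i (F : R), ∃ c : ℂ, F - algebraMap ℂ R c ∈ mp x (p i) := by
      intro i F
      refine ⟨εp i F, ?_⟩
      rw [← hker i]
      show εp i (F - algebraMap ℂ R (εp i F)) = 0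
      rw [map_sub, AlgHom.commutes]
      simp
    have hloc : ∀ i, mp x (p i) ≤ Ideal.span {h - algebraMap ℂ R (εp i h),
        v - algebraMap ℂ R (εp i v)} ⊔ mp x (p i) ^ 2 := by
      intro i
      rw [← hker i]
      apply local_coords x hx h v g hg (εp i)
      intro l
      rw [← hd l, hεp i]
      have h1 := hpT _ (Or.inr ⟨(i, l), rfl⟩)
      simp only at h1
      rw [eval_rename] at h1
      exact h1
    have hmem : ∀ i (F : R), F - algebraMap ℂ R (εp i F) ∈ mp x (p i) := by
      intro i F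
      rw [← hker i]
      show εp i (F - algebraMap ℂ R (εp i F)) = 0
      rw [map_sub, AlgHom.commutes]
      simp
    -- the rational number
    have hlt : e / Sμ < ε1 := by rwa [div_lt_iff₀ hSm0]
    obtain ⟨ρ, hρ1, hρ2⟩ := exists_rat_btwn hlt
    have hρ0 : (0 : ℝ) < ρ := lt_of_le_of_lt (div_nonneg he0 hSm0.le) hρ1
    have hρ0' : 0 < ρ := by exact_mod_cast hρ0
    set A : ℕ := ρ.num.toNat with hA
    set B : ℕ := ρ.den with hB
    have hAz : (A : ℤ) = ρ.num := Int.toNat_of_nonneg (Rat.num_nonneg.mpr hρ0'.le)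
    have hA0 : 0 < A := by
      have : 0 < ρ.num := Rat.num_pos.mpr hρ0'
      omega
    have hB0 : 0 < B := ρ.den_pos
    have hρAB : (ρ : ℝ) = A / B := by
      rw [Rat.cast_def, hB]
      congr 1
      rw [← hAz]
      simp
    have hB0' : (0 : ℝ) < B := by exact_mod_cast hB0
    rw [hρAB] at hρ1 hρ2
    have hviol : e * B < A * Sμ := by
      rw [div_lt_div_iff₀ hSm0 hB0'] at hρ1
      exact hρ1
    have hAB : (A : ℝ) < ε1 * B := by rwa [div_lt_iff₀ hB0'] at hρ2
    obtain ⟨cg, hcg⟩ := S.growth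
    obtain ⟨t, ht, C1, hC1⟩ := excess x hx N ⟨cg, fun s => by
        have := (abs_le.mp (hcg s)).1
        linarith⟩ (fun i => mp x (p i)) hmax hres
      (fun i => h - algebraMap ℂ R (εp i h)) (fun i => v - algebraMap ℂ R (εp i v))
      (fun i => hmem i h) (fun i => hmem i v) hloc P hP
      (fun i hi => hPmax (hi ▸ hmax i)) μ hμ e c hhilb A B hA0 hB0 hviol
    have hnefAB : ∀ F : R2, Irreducible F → A * smult q F ≤ B * wdeg N F := by
      intro F hF
      have h1 := hqnef F hF
      have h2 : (A : ℝ) * smult q F ≤ B * wdeg N F := by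
        calc (A : ℝ) * smult q F ≤ (ε1 * B) * smult q F :=
              mul_le_mul_of_nonneg_right hAB.le (by positivity)
          _ = B * (ε1 * smult q F) := by ring
          _ ≤ B * wdeg N F := mul_le_mul_of_nonneg_left h1 hB0'.le
      exact_mod_cast h2
    have hpos : r * A ^ 2 < N * B ^ 2 := by
      have h1 : (A : ℝ) ^ 2 < (ε1 * B) ^ 2 := pow_lt_pow_left₀ hAB (by positivity) two_ne_zero
      have h2 : (r : ℝ) * (A : ℝ) ^ 2 < N * B ^ 2 := by
        have hr' : (0 : ℝ) < r := by exact_mod_cast hr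
        calc (r : ℝ) * (A : ℝ) ^ 2 < r * (ε1 * B) ^ 2 := mul_lt_mul_of_pos_left h1 hr'
          _ = (r * ε1 ^ 2) * B ^ 2 := by ring
          _ ≤ N * B ^ 2 := mul_le_mul_of_nonneg_right hε1 (by positivity)
      exact_mod_cast h2
    obtain ⟨C2, hC2⟩ := vol_le N hN q hqinj A B hB0 hnefAB hpos c0
    -- comparison of dimensions
    have hdim : ∀ k : ℕ, (k : ℝ) ^ 2 ≤ (C1 + |C2| * (t + 1)) * (k + 1) := by
      intro k
      have h1 := hC1 k
      have h2 := hG2 (B * t * k, A * t * k) p hp (hpT _ (Or.inl ⟨_, rfl⟩))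
      have h3 := hC2 (t * k)
      have e1 : N * (B * t * k) + c0 = N * B * (t * k) + c0 := by ring
      have e2 : A * t * k = A * (t * k) := by ring
      simp only at h2
      rw [e1, e2] at h2
      rw [e2] at h1
      have h4 : (Module.finrank ℂ (Lsys x (B * t * k) (fun i => mp x (p i)) (A * (t * k))) : ℝ) ≤
          Module.finrank ℂ (Vsys N (N * B * (t * k) + c0) (A * (t * k)) q) := by
        exact_mod_cast h2
      push_cast at h3
      have h5 : C2 * (t * k + 1) ≤ |C2| * ((k + 1) * (t + 1)) := by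
        have h6 : C2 * (t * k + 1) ≤ |C2| * (t * k + 1) :=
          mul_le_mul_of_nonneg_right (le_abs_self _) (by positivity)
        have h7 : |C2| * (t * k + 1) ≤ |C2| * ((k + 1) * (t + 1)) := by
          apply mul_le_mul_of_nonneg_left _ (abs_nonneg _)
          have h8 : (0 : ℝ) ≤ k := by positivity
          have h9 : (0 : ℝ) ≤ t := by positivity
          nlinarith
        linarith
      linarith
    set C := C1 + |C2| * (t + 1) with hC
    obtain ⟨k, hk⟩ := exists_nat_gt (2 * |C| + 1)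
    have h1 := hdim k
    have hk1 : (1 : ℝ) ≤ k := by
      have := abs_nonneg C
      linarith
    have h2 : C * (k + 1) ≤ |C| * (2 * k) := by
      calc C * (k + 1) ≤ |C| * (k + 1) := mul_le_mul_of_nonneg_right (le_abs_self _) (by positivity)
        _ ≤ |C| * (2 * k) := mul_le_mul_of_nonneg_left (by linarith) (abs_nonneg _)
    nlinarith

end Pool.Agent.helper7.SC
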