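import Mathlib

set_option autoImplicit false

/-!
# Affine surfaces, given by polynomial ideals
-/

namespace Pool.Agent.helper7.SC

open MvPolynomial

/-- affine Hilbert function: the dimension of the space of functions on the zero set of `J` which
are given by polynomials of degree at most `s` -/
noncomputable def hf {n : ℕ} (J : Ideal (MvPolynomial (Fin n) ℂ)) (s : ℕ) : ℕ :=
  Module.finrank ℂ ((restrictTotalDegree (Fin n) ℂ s).map (Ideal.Quotient.mkₐ ℂ J).toLinearMap)

/-- the ideal of the point `p` -/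
noncomputable def ptId {n : ℕ} (p : Fin n → ℂ) : Ideal (MvPolynomial (Fin n) ℂ) :=
  RingHom.ker (eval p)

/-- `I` is the ideal of an affine surface in `ℂⁿ` whose closure in projective space has degree `N`,
`h = 0` is an integral hyperplane section without components at infinity, and `z` is a point of the
section at which `h` and `v` are local coordinates of the surface. -/
structure IsSurface {n : ℕ} (I : Ideal (MvPolynomial (Fin n) ℂ)) (N : ℕ)
    (h v : MvPolynomial (Fin n) ℂ) (z : Fin n → ℂ) : Prop where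
  prime : I.IsPrime
  growth : ∃ c : ℝ, ∀ s : ℕ, |(hf I s : ℝ) - N * (s : ℝ) ^ 2 / 2| ≤ c * (s + 1)
  degree_h : h.totalDegree ≤ 1
  not_mem : h ∉ I
  prime_h : (I ⊔ Ideal.span {h}).IsPrime
  sat : ∃ s0 : ℕ, ∀ s, s0 ≤ s → ∀ F G : MvPolynomial (Fin n) ℂ, G.totalDegree ≤ s + 1 →
    h * F - G ∈ I → ∃ H : MvPolynomial (Fin n) ℂ, H.totalDegree ≤ s ∧ F - H ∈ I
  mem_z : I ≤ ptId z
  coord : ptId z = I ⊔ Ideal.span {h, v} ⊔ ptId z ^ 2

end Pool.Agent.helper7.SC
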