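import Pool.Agent.helper7.SC.Final
import Pool.Agent.helper7.SC.PolyDefs

set_option autoImplicit false

/-!
# The main theorem in terms of polynomial ideals
-/

namespace Pool.Agent.helper7.SC

open MvPolynomial Pool.Agent.helper5.NBS

lemma finrank_map_eq_of_ker {A B C' : Type} [AddCommGroup A] [Module ℂ A] [AddCommGroup B]
    [Module ℂ B] [AddCommGroup C'] [Module ℂ C'] (f : A →ₗ[ℂ] B) (g : A →ₗ[ℂ] C')
    (h : LinearMap.ker f = LinearMap.ker g) (V : Submodule ℂ A) :
    Module.finrank ℂ (V.map f) = Module.finrank ℂ (V.map g) := by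
  have h1 : V.map f = LinearMap.range (f.comp V.subtype) := by
    rw [LinearMap.range_comp, Submodule.range_subtype]
  have h2 : V.map g = LinearMap.range (g.comp V.subtype) := by
    rw [LinearMap.range_comp, Submodule.range_subtype]
  have h3 : LinearMap.ker (f.comp V.subtype) = LinearMap.ker (g.comp V.subtype) := by
    rw [LinearMap.ker_comp, LinearMap.ker_comp, h]
  rw [h1, h2]
  exact ((LinearMap.quotKerEquivRange _).symm.trans
    ((Submodule.quotEquivOfEq _ _ h3).trans (LinearMap.quotKerEquivRange _))).finrank_eq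

section

variable {n : ℕ} (I : Ideal (MvPolynomial (Fin n) ℂ))

/-- the coordinate functions -/
noncomputable def xx : Fin n → (MvPolynomial (Fin n) ℂ ⧸ I) := fun l => Ideal.Quotient.mk I (X l)

lemma aeval_xx (f : MvPolynomial (Fin n) ℂ) : aeval (xx I) f = Ideal.Quotient.mk I f := by
  have h : (aeval (xx I) : MvPolynomial (Fin n) ℂ →ₐ[ℂ] _) = Ideal.Quotient.mkₐ ℂ I := by
    apply MvPolynomial.algHom_ext
    intro l
    rw [aeval_X]
    rfl
  rw [h]
  rfl

lemma aeval_xx' : (aeval (xx I) : MvPolynomial (Fin n) ℂ →ₐ[ℂ] _) = Ideal.Quotient.mkₐ ℂ I :=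
  AlgHom.ext fun f => aeval_xx I f

lemma W_xx (s : ℕ) : W (xx I) s =
    (restrictTotalDegree (Fin n) ℂ s).map (Ideal.Quotient.mkₐ ℂ I).toLinearMap := by
  rw [W, aeval_xx']

lemma mem_W_xx {s : ℕ} {f : MvPolynomial (Fin n) ℂ} : Ideal.Quotient.mk I f ∈ W (xx I) s ↔
    ∃ g : MvPolynomial (Fin n) ℂ, g.totalDegree ≤ s ∧ f - g ∈ I := by
  rw [W_xx, Submodule.mem_map]
  constructor
  · rintro ⟨g, hg, hgf⟩
    refine ⟨g, (mem_restrictTotalDegree _ _ _).mp hg, ?_⟩
    rw [← Ideal.Quotient.eq]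
    exact hgf.symm
  · rintro ⟨g, hg, hgf⟩
    refine ⟨g, (mem_restrictTotalDegree _ _ _).mpr hg, ?_⟩
    exact (Ideal.Quotient.eq.mpr hgf).symm

lemma onU_xx {p : Fin n → ℂ} : OnU (xx I) p ↔ I ≤ ptId p := by
  constructor
  · intro h f hf
    exact h f (by rw [aeval_xx]; exact Ideal.Quotient.eq_zero_iff_mem.mpr hf)
  · intro h f hf
    rw [aeval_xx, Ideal.Quotient.eq_zero_iff_mem] at hf
    exact h hf

lemma ptId_eq (p : Fin n → ℂ) : ptId p = Ideal.span (Set.range fun l => X l - C (p l)) := by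
  apply le_antisymm
  · intro f hf
    have key : ∀ f : MvPolynomial (Fin n) ℂ,
        f - C (eval p f) ∈ Ideal.span (Set.range fun l => (X l - C (p l) : MvPolynomial (Fin n) ℂ)) := by
      intro f
      induction f using MvPolynomial.induction_on with
      | C a => simp
      | add f g hf hg =>
        have : (f + g) - C (eval p (f + g)) = (f - C (eval p f)) + (g - C (eval p g)) := by
          rw [map_add, map_add]; ring
        rw [this]
        exact Ideal.add_mem _ hf hg
      | mul_X f l hf =>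
        have : f * X l - C (eval p (f * X l)) =
            X l * (f - C (eval p f)) + C (eval p f) * (X l - C (p l)) := by
          rw [map_mul, map_mul, eval_X]; ring
        rw [this]
        exact Ideal.add_mem _ (Ideal.mul_mem_left _ _ hf)
          (Ideal.mul_mem_left _ _ (Ideal.subset_span ⟨l, rfl⟩))
    have h1 := key f
    have h2 : eval p f = 0 := hf
    rwa [h2, C_0, sub_zero] at h1
  · rw [Ideal.span_le]
    rintro _ ⟨l, rfl⟩
    show eval p (X l - C (p l)) = 0
    simp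

lemma mp_xx (p : Fin n → ℂ) : mp (xx I) p = (ptId p).map (Ideal.Quotient.mk I) := by
  rw [ptId_eq, Ideal.map_span, mp, ← Set.range_comp]
  congr 1

lemma hilb_xx {P : Ideal (MvPolynomial (Fin n) ℂ)} (hP : I ≤ P) (s : ℕ) :
    hilb (xx I) (P.map (Ideal.Quotient.mk I)) s = hf P s := by
  rw [hilb, W_xx, ← Submodule.map_comp, hf]
  apply finrank_map_eq_of_ker
  ext f
  rw [LinearMap.mem_ker, LinearMap.mem_ker]
  show Ideal.Quotient.mk (P.map (Ideal.Quotient.mk I)) (Ideal.Quotient.mk I f) = 0 ↔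
    Ideal.Quotient.mk P f = 0
  rw [Ideal.Quotient.eq_zero_iff_mem, Ideal.Quotient.eq_zero_iff_mem,
    Ideal.mem_quotient_iff_mem hP]

end

/-- **Main theorem.** -/
theorem main_poly {n N r : ℕ} {I : Ideal (MvPolynomial (Fin n) ℂ)}
    {h v : MvPolynomial (Fin n) ℂ} {z : Fin n → ℂ} (hN : 0 < N) (hr : 600 * N ≤ r)
    (S : IsSurface I N h v z) :
    ∃ T : Set (MvPolynomial (Fin r × Fin n) ℂ), T.Countable ∧
      (∀ g ∈ T, ∃ p : Fin r → Fin n → ℂ, (∀ i, I ≤ ptId (p i)) ∧
        eval (fun il => p il.1 il.2) g ≠ 0) ∧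
      ∀ p : Fin r → Fin n → ℂ, (∀ i, I ≤ ptId (p i)) →
        (∀ g ∈ T, eval (fun il => p il.1 il.2) g ≠ 0) →
        ∀ P : Ideal (MvPolynomial (Fin n) ℂ), P.IsPrime → ¬ P.IsMaximal → I ≤ P →
          ∀ μ : Fin r → ℕ, (∀ i, P ≤ I ⊔ ptId (p i) ^ μ i) →
          ∀ e c : ℝ, (∀ s, (hf P s : ℝ) ≤ e * s + c) →
            (1 - 10 * N / r ^ 2) * N * (∑ i, (μ i : ℝ)) ^ 2 ≤ r * e ^ 2 := by
  have hI := S.prime
  have hgen : Algebra.adjoin ℂ (Set.range (xx I)) = ⊤ := by
    rw [Algebra.adjoin_range_eq_range_aeval, aeval_xx', AlgHom.range_eq_top]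
    exact Ideal.Quotient.mkₐ_surjective ℂ I
  let ε : (MvPolynomial (Fin n) ℂ ⧸ I) →ₐ[ℂ] ℂ := Ideal.Quotient.liftₐ I (aeval z) (fun f hf => by
    have := S.mem_z hf
    rw [aeval_eq_eval]
    exact this)
  have hε : ∀ f, ε (Ideal.Quotient.mk I f) = eval z f := fun f => by
    have : ε (Ideal.Quotient.mk I f) = aeval z f := Ideal.Quotient.liftₐ_apply _ _ _ _
    rw [this, aeval_eq_eval]
  have hker : RingHom.ker ε = (ptId z).map (Ideal.Quotient.mk I) := by
    apply le_antisymm
    · intro F hF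
      obtain ⟨f, rfl⟩ := Ideal.Quotient.mk_surjective F
      have h1 : ε (Ideal.Quotient.mk I f) = 0 := hF
      rw [hε] at h1
      exact Ideal.mem_map_of_mem _ h1
    · rw [Ideal.map_le_iff_le_comap]
      intro f hf
      show ε (Ideal.Quotient.mk I f) = 0
      rw [hε]
      exact hf
  have hmem : ∀ f ∈ ({h, v} : Set (MvPolynomial (Fin n) ℂ)), f ∈ ptId z := by
    intro f hf
    have h1 : Ideal.span {h, v} ≤ ptId z := by
      conv_rhs => rw [S.coord]
      exact le_sup_of_le_left le_sup_right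
    exact h1 (Ideal.subset_span hf)
  have Sf : Surf (xx I) N (Ideal.Quotient.mk I h) (Ideal.Quotient.mk I v) ε := by
    refine ⟨hgen, ?_, ?_, ?_, ?_, ?_, ?_, ?_, ?_⟩
    · obtain ⟨c, hc⟩ := S.growth
      refine ⟨⌈2 * c⌉, fun s => ?_⟩
      have h1 := hc s
      rw [hf, ← W_xx] at h1
      have h2 : |(2 * (Module.finrank ℂ (W (xx I) s) : ℝ) - N * (s : ℝ) ^ 2)| ≤
          ((⌈2 * c⌉ : ℤ) : ℝ) * (s + 1) := by
        have h3 : 2 * (Module.finrank ℂ (W (xx I) s) : ℝ) - N * (s : ℝ) ^ 2 =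
            2 * ((Module.finrank ℂ (W (xx I) s) : ℝ) - N * (s : ℝ) ^ 2 / 2) := by ring
        rw [h3, abs_mul, abs_two]
        have h4 : 2 * c ≤ ((⌈2 * c⌉ : ℤ) : ℝ) := Int.le_ceil _
        have h5 : 2 * c * ((s : ℝ) + 1) ≤ ((⌈2 * c⌉ : ℤ) : ℝ) * (s + 1) :=
          mul_le_mul_of_nonneg_right h4 (by positivity)
        linarith
      exact_mod_cast h2
    · rw [mem_W_xx]
      exact ⟨h, S.degree_h, by rw [sub_self]; exact I.zero_mem⟩
    · intro h0
      exact S.not_mem (Ideal.Quotient.eq_zero_iff_mem.mp h0)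
    · have h1 : Ideal.span {Ideal.Quotient.mk I h} =
          (I ⊔ Ideal.span {h}).map (Ideal.Quotient.mk I) := by
        rw [Ideal.map_sup, Ideal.map_quotient_self, bot_sup_eq, Ideal.map_span,
          Set.image_singleton]
      rw [h1]
      have h2 := S.prime_h
      exact Ideal.map_isPrime_of_surjective Ideal.Quotient.mk_surjective (by
        rw [Ideal.mk_ker]
        exact le_sup_left)
    · obtain ⟨s0, hs0⟩ := S.sat
      refine ⟨s0, fun s hs F hF => ?_⟩
      obtain ⟨f, rfl⟩ := Ideal.Quotient.mk_surjective F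
      rw [← map_mul, mem_W_xx] at hF
      obtain ⟨g, hg, hgI⟩ := hF
      rw [mem_W_xx]
      exact hs0 s hs f g hg hgI
    · rw [hε]
      exact hmem h (by simp)
    · rw [hε]
      exact hmem v (by simp)
    · rw [hker]
      have h1 : (ptId z).map (Ideal.Quotient.mk I) =
          (I ⊔ Ideal.span {h, v} ⊔ ptId z ^ 2).map (Ideal.Quotient.mk I) := by
        rw [← S.coord]
      conv_lhs => rw [h1]
      rw [Ideal.map_sup, Ideal.map_sup, Ideal.map_quotient_self, bot_sup_eq, Ideal.map_pow,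
        Ideal.map_span, Set.image_pair]
  obtain ⟨T, h1, h2, h3⟩ := main hN Sf hr
  refine ⟨T, h1, ?_, ?_⟩
  · intro g hg
    obtain ⟨p, hp, hpg⟩ := h2 g hg
    exact ⟨p, fun i => (onU_xx I).mp (hp i), hpg⟩
  · intro p hp hT P hP hPm hIP μ hμ e c hh
    have hprime : (P.map (Ideal.Quotient.mk I)).IsPrime :=
      Ideal.map_isPrime_of_surjective Ideal.Quotient.mk_surjective (by
        rw [Ideal.mk_ker]
        exact hIP)
    have hcomap : (P.map (Ideal.Quotient.mk I)).comap (Ideal.Quotient.mk I) = P := by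
      ext f
      rw [Ideal.mem_comap, Ideal.mem_quotient_iff_mem hIP]
    refine h3 p (fun i => (onU_xx I).mpr (hp i)) hT (P.map (Ideal.Quotient.mk I)) hprime ?_ μ ?_ e c ?_
    · intro hmax
      apply hPm
      rw [← hcomap]
      exact Ideal.comap_isMaximal_of_surjective _ Ideal.Quotient.mk_surjective
    · intro i
      rw [mp_xx, ← Ideal.map_pow]
      have h4 := Ideal.map_mono (f := Ideal.Quotient.mk I) (hμ i)
      rw [Ideal.map_sup, Ideal.map_quotient_self, bot_sup_eq] at h4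
      exact h4
    · intro s
      rw [hilb_xx I hIP]
      exact hh s

end Pool.Agent.helper7.SC
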