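import Mathlib
import Pool.Agent.helper7.Hex.Sym

set_option autoImplicit false

/-!
# Shears of the set of exponents
-/

namespace Pool.Agent.helper7.SC

open Pool.Agent.helper89.Segre

/-- span of the products of binomials of total degree at most `d` -/
noncomputable def Qd (d : ℕ) : Submodule ℂ (ℕ × ℕ → ℂ) :=
  Submodule.span ℂ {f | ∃ a l : ℕ, a + l ≤ d ∧ f = fun e : ℕ × ℕ =>
    ((e.1.choose a : ℕ) : ℂ) * ((e.2.choose l : ℕ) : ℂ)}

lemma mem_Qd {d a l : ℕ} (h : a + l ≤ d) : (fun e : ℕ × ℕ =>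
    ((e.1.choose a : ℕ) : ℂ) * ((e.2.choose l : ℕ) : ℂ)) ∈ Qd d :=
  Submodule.subset_span ⟨a, l, h, rfl⟩

lemma Qd_mono {d d' : ℕ} (h : d ≤ d') : Qd d ≤ Qd d' := by
  unfold Qd
  rw [Submodule.span_le]
  rintro f ⟨a, l, hal, rfl⟩
  exact mem_Qd (hal.trans h)

lemma choose_mul_self (n a : ℕ) : (n : ℂ) * ((n.choose a : ℕ) : ℂ) =
    (a + 1) * ((n.choose (a + 1) : ℕ) : ℂ) + a * ((n.choose a : ℕ) : ℂ) := by
  rcases Nat.lt_or_ge n a with h | h
  · rw [Nat.choose_eq_zero_of_lt h, Nat.choose_eq_zero_of_lt (show n < a + 1 by omega)]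
    simp
  · have h1 := Nat.choose_succ_right_eq n a
    obtain ⟨k, rfl⟩ := Nat.exists_eq_add_of_le h
    rw [Nat.add_sub_cancel_left] at h1
    have h2 : (((a + k).choose (a + 1) : ℕ) : ℂ) * (a + 1) = (((a + k).choose a : ℕ) : ℂ) * k := by
      exact_mod_cast h1
    push_cast
    linear_combination -h2

lemma Qd_mul_fst {d : ℕ} {f : ℕ × ℕ → ℂ} (hf : f ∈ Qd d) :
    (fun e : ℕ × ℕ => (e.1 : ℂ) * f e) ∈ Qd (d + 1) := by
  have h : Qd d ≤ (Qd (d + 1)).comap (LinearMap.mulLeft ℂ (fun e : ℕ × ℕ => (e.1 : ℂ))) := by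
    conv_lhs => unfold Qd
    rw [Submodule.span_le]
    rintro f ⟨a, l, hal, rfl⟩
    change (fun e : ℕ × ℕ => (e.1 : ℂ)) * (fun e : ℕ × ℕ =>
      ((e.1.choose a : ℕ) : ℂ) * ((e.2.choose l : ℕ) : ℂ)) ∈ Qd (d + 1)
    have h1 := Submodule.add_mem _ (Submodule.smul_mem _ ((a : ℂ) + 1)
      (mem_Qd (show (a + 1) + l ≤ d + 1 by omega)))
      (Submodule.smul_mem _ (a : ℂ) (mem_Qd (show a + l ≤ d + 1 by omega)))
    convert h1 using 1
    ext e
    simp only [Pi.mul_apply, Pi.add_apply, Pi.smul_apply, smul_eq_mul]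
    rw [← mul_assoc, choose_mul_self]
    ring
  exact h hf

lemma Qd_mul_snd {d : ℕ} {f : ℕ × ℕ → ℂ} (hf : f ∈ Qd d) :
    (fun e : ℕ × ℕ => (e.2 : ℂ) * f e) ∈ Qd (d + 1) := by
  have h : Qd d ≤ (Qd (d + 1)).comap (LinearMap.mulLeft ℂ (fun e : ℕ × ℕ => (e.2 : ℂ))) := by
    conv_lhs => unfold Qd
    rw [Submodule.span_le]
    rintro f ⟨a, l, hal, rfl⟩
    change (fun e : ℕ × ℕ => (e.2 : ℂ)) * (fun e : ℕ × ℕ =>
      ((e.1.choose a : ℕ) : ℂ) * ((e.2.choose l : ℕ) : ℂ)) ∈ Qd (d + 1)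
    have h1 := Submodule.add_mem _ (Submodule.smul_mem _ ((l : ℂ) + 1)
      (mem_Qd (show a + (l + 1) ≤ d + 1 by omega)))
      (Submodule.smul_mem _ (l : ℂ) (mem_Qd (show a + l ≤ d + 1 by omega)))
    convert h1 using 1
    ext e
    simp only [Pi.mul_apply, Pi.add_apply, Pi.smul_apply, smul_eq_mul]
    rw [mul_left_comm, choose_mul_self]
    ring
  exact h hf

lemma Qd_mul_choose {d : ℕ} {f : ℕ × ℕ → ℂ} (hf : f ∈ Qd d) : ∀ i : ℕ,
    (fun e : ℕ × ℕ => (((e.1 + e.2).choose i : ℕ) : ℂ) * f e) ∈ Qd (d + i) := by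
  intro i
  induction i with
  | zero =>
    have h0 : (fun e : ℕ × ℕ => (((e.1 + e.2).choose 0 : ℕ) : ℂ) * f e) = f := by
      funext e
      simp
    rw [h0]
    exact hf
  | succ i ih =>
    have h1 := Submodule.add_mem _ (Qd_mul_fst ih) (Qd_mul_snd ih)
    have h2 := Submodule.smul_mem _ (-(i : ℂ)) (Qd_mono (Nat.le_succ (d + i)) ih)
    have h3 := Submodule.smul_mem _ ((i : ℂ) + 1)⁻¹ (Submodule.add_mem _ h1 h2)
    have h5 : (i : ℂ) + 1 ≠ 0 := by exact_mod_cast Nat.succ_ne_zero i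
    have h6 : (fun e : ℕ × ℕ => (((e.1 + e.2).choose (i + 1) : ℕ) : ℂ) * f e) =
        ((i : ℂ) + 1)⁻¹ • (((fun e : ℕ × ℕ => (e.1 : ℂ) *
          ((((e.1 + e.2).choose i : ℕ) : ℂ) * f e)) + fun e : ℕ × ℕ => (e.2 : ℂ) *
          ((((e.1 + e.2).choose i : ℕ) : ℂ) * f e)) + (-(i : ℂ)) •
          fun e : ℕ × ℕ => (((e.1 + e.2).choose i : ℕ) : ℂ) * f e) := by
      funext e
      simp only [Pi.add_apply, Pi.smul_apply, smul_eq_mul]
      have h4 := choose_mul_self (e.1 + e.2) i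
      push_cast at h4
      rw [eq_inv_mul_iff_mul_eq₀ h5]
      linear_combination (-f e) * h4
    rw [h6]
    exact h3

lemma mem_Qd_shear (i j : ℕ) : (fun e : ℕ × ℕ =>
    (((e.1 + e.2).choose i : ℕ) : ℂ) * ((e.2.choose j : ℕ) : ℂ)) ∈ Qd (i + j) := by
  have h := Qd_mul_choose (mem_Qd (show 0 + j ≤ j by omega)) i
  rw [add_comm j i] at h
  convert h using 1
  ext e
  simp

/-- the shear of exponents -/
lemma good_unshear {D : Finset (ℕ × ℕ)} {ms : Multiset ℕ} {r : ℕ}
    (h : Good ℂ (D.image fun e => (e.1 + e.2, e.2)) ms r) : Good ℂ D ms r := by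
  classical
  obtain ⟨L, hL1, hL2, hL3⟩ := h
  have hinj : Function.Injective (fun e : ℕ × ℕ => (e.1 + e.2, e.2)) := by
    intro a b hab
    simp only [Prod.mk.injEq] at hab
    ext
    · omega
    · exact hab.2
  refine ⟨L.map fun x => ((x.1.1, x.1.1 * x.1.2), x.2), ?_, ?_, ?_⟩
  · rw [Multiset.map_map, ← hL1]; rfl
  · intro x hx
    obtain ⟨z, hz, rfl⟩ := Multiset.mem_map.mp hx
    exact ⟨(hL2 z hz).1, mul_ne_zero (hL2 z hz).1 (hL2 z hz).2⟩
  let T : (ℕ × ℕ → ℂ) →ₗ[ℂ] (ℕ × ℕ → ℂ) :=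
    { toFun := fun c f => if f.2 ≤ f.1 then c (f.1 - f.2, f.2) else 0
      map_add' := by
        intro a b; ext e
        simp only [Pi.add_apply]
        split_ifs <;> simp
      map_smul' := by
        intro a b; ext e
        simp only [Pi.smul_apply, smul_eq_mul, RingHom.id_apply]
        split_ifs <;> simp }
  have hT : ∀ (c : ℕ × ℕ → ℂ) (e : ℕ × ℕ), T c (e.1 + e.2, e.2) = c e := by
    intro c e
    change (if e.2 ≤ e.1 + e.2 then c (e.1 + e.2 - e.2, e.2) else 0) = c e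
    rw [if_pos (Nat.le_add_left _ _), Nat.add_sub_cancel]
  refine hL3.transfer T ?_ ?_ (Finset.card_image_of_injective _ hinj).symm
  · intro c hc
    rw [mem_Kr_iff] at hc ⊢
    refine ⟨fun e he => ?_, ?_⟩
    · change (if e.2 ≤ e.1 then c (e.1 - e.2, e.2) else 0) = 0
      split_ifs with h3
      · apply hc.1
        intro h4
        apply he
        refine Finset.mem_image.mpr ⟨_, h4, ?_⟩
        ext
        · simp only; omega
        · rfl
      · rfl
    · rintro x hx ⟨i, j⟩ hij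
      rw [mem_idx] at hij
      simp only at hij
      rw [Finset.sum_image (fun a _ b _ h => hinj h)]
      -- the functional
      let Λ : (ℕ × ℕ → ℂ) →ₗ[ℂ] ℂ :=
        { toFun := fun f => ∑ e ∈ D, c e * pw (x.1.1, x.1.1 * x.1.2) e * f e
          map_add' := by
            intro a b
            simp only [Pi.add_apply, mul_add, Finset.sum_add_distrib]
          map_smul' := by
            intro a b
            simp only [Pi.smul_apply, smul_eq_mul, RingHom.id_apply, Finset.mul_sum]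
            apply Finset.sum_congr rfl
            intro e _
            ring }
      have hΛ : Qd (i + j) ≤ LinearMap.ker Λ := by
        unfold Qd
        rw [Submodule.span_le]
        rintro f ⟨a, l, hal, rfl⟩
        have h1 := hc.2 _ (Multiset.mem_map_of_mem _ hx) (a, l)
          (by rw [mem_idx]; simp only; omega)
        change Λ _ = 0
        change ∑ e ∈ D, c e * pw (x.1.1, x.1.1 * x.1.2) e *
          (((e.1.choose a : ℕ) : ℂ) * ((e.2.choose l : ℕ) : ℂ)) = 0
        rw [← h1]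
        apply Finset.sum_congr rfl
        intro e _
        ring
      have h2 := hΛ (mem_Qd_shear i j)
      rw [LinearMap.mem_ker] at h2
      change ∑ e ∈ D, c e * pw (x.1.1, x.1.1 * x.1.2) e *
          ((((e.1 + e.2).choose i : ℕ) : ℂ) * ((e.2.choose j : ℕ) : ℂ)) = 0 at h2
      rw [← h2]
      apply Finset.sum_congr rfl
      intro e _
      rw [hT]
      simp only [pw]
      rw [pow_add, mul_pow]
      ring
  · intro c hc h0
    ext e
    have := congrFun h0 (e.1 + e.2, e.2)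
    rw [hT] at this
    exact this

lemma good_unshear_iter {D : Finset (ℕ × ℕ)} {ms : Multiset ℕ} {r : ℕ} (k : ℕ) :
    Good ℂ (D.image fun e => (e.1 + k * e.2, e.2)) ms r → Good ℂ D ms r := by
  classical
  induction k with
  | zero =>
    intro h
    convert h using 1
    ext e
    simp
  | succ k ih =>
    intro h
    apply ih
    apply good_unshear
    convert h using 1
    rw [Finset.image_image]
    apply Finset.image_congr
    intro e _
    simp only [Function.comp_apply, Prod.mk.injEq, and_true]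
    ring

end Pool.Agent.helper7.SC
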