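import Mathlib
import Pool.Agent.helper89.Segre.Results
import Pool.Agent.helper89.Segre2.Split
import Pool.Agent.helper7.SC.Shear

set_option autoImplicit false

/-!
# Emptiness on the weighted triangle
-/

namespace Pool.Agent.helper7.SC

open Pool.Agent.helper89.Segre

lemma pick_large (M : ℕ) : ∀ (n : ℕ) (L : Multiset ℕ), n ≤ Multiset.card L → (∀ x ∈ L, x ≤ M) →
    ∃ S L' : Multiset ℕ, L = S + L' ∧ Multiset.card S = n ∧
      (∀ a ∈ S, ∀ x ∈ L', x ≤ a) ∧ (∀ a ∈ S, a ≤ M) := by
  intro n
  induction n with
  | zero =>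
    intro L _ _
    exact ⟨0, L, by simp, by simp, by simp, by simp⟩
  | succ n ih =>
    intro L hn hL
    have hne : L.toFinset.Nonempty := by
      rw [Finset.nonempty_iff_ne_empty]; intro h
      rw [Multiset.toFinset_eq_empty] at h
      subst h; simp at hn
    set μ := L.toFinset.max' hne with hμ
    have hμL : μ ∈ L := Multiset.mem_toFinset.mp (Finset.max'_mem _ _)
    have hμmax : ∀ x ∈ L, x ≤ μ := fun x hx =>
      Finset.le_max' _ _ (Multiset.mem_toFinset.mpr hx)
    obtain ⟨L1, hL1⟩ := Multiset.exists_cons_of_mem hμL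
    obtain ⟨S, L', h1, h2, h3, h4⟩ := ih L1 (by rw [hL1, Multiset.card_cons] at hn; omega)
      (fun x hx => hL x (by rw [hL1]; exact Multiset.mem_cons_of_mem hx))
    refine ⟨μ ::ₘ S, L', ?_, ?_, ?_, ?_⟩
    · rw [hL1, h1, Multiset.cons_add]
    · rw [Multiset.card_cons, h2]
    · intro a ha x hx
      rcases Multiset.mem_cons.mp ha with rfl | ha
      · have hxL : x ∈ L := by
          rw [hL1, h1]
          exact Multiset.mem_cons_of_mem (Multiset.mem_add.mpr (Or.inr hx))
        exact hμmax x hxL
      · exact h3 a ha x hx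
    · intro a ha
      rcases Multiset.mem_cons.mp ha with rfl | ha
      · exact hL _ hμL
      · exact h4 a ha

/-- emptiness on a triangle -/
lemma good_tri_empty {d M : ℕ} {ms : Multiset ℕ} (hms : ∀ m ∈ ms, m ≤ M)
    (H : (tri d).card + 5 * kk M ≤ (ms.map kk).sum) : Good ℂ (tri d) ms (tri d).card := by
  classical
  have hcard : 5 ≤ Multiset.card ms := by
    by_contra hcon
    have h1 := Multiset.sum_le_card_nsmul (ms.map kk) (kk M) (by
      intro x hx
      obtain ⟨a, ha, rfl⟩ := Multiset.mem_map.mp hx
      exact kk_mono (hms a ha))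
    rw [Multiset.card_map, smul_eq_mul] at h1
    have h2 : Multiset.card ms * kk M ≤ 4 * kk M := Nat.mul_le_mul_right _ (by omega)
    have h3 : 0 < (tri d).card := by
      rw [card_tri]
      exact Nat.choose_pos (by omega)
    omega
  obtain ⟨S, L', hSL, hS5, hSx, hSM⟩ := pick_large M 5 _ hcard hms
  have hsum : (L'.map kk).sum + (S.map kk).sum = (ms.map kk).sum := by
    rw [hSL, Multiset.map_add, Multiset.sum_add, add_comm]
  have hSsum : (S.map kk).sum ≤ 5 * kk M := by
    have := Multiset.sum_le_card_nsmul (S.map kk) (kk M) (by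
      intro x hx
      obtain ⟨a, ha, rfl⟩ := Multiset.mem_map.mp hx
      exact kk_mono (hSM a ha))
    rw [Multiset.card_map, hS5, smul_eq_mul] at this
    exact this
  obtain ⟨a1, S1, rfl, hS4⟩ := exists_cons hS5
  obtain ⟨a2, S2, rfl, hS3⟩ := exists_cons hS4
  obtain ⟨a3, S3, rfl, hS2⟩ := exists_cons hS3
  obtain ⟨a4, S4, rfl, hS1⟩ := exists_cons hS2
  obtain ⟨a5, rfl⟩ := Multiset.card_eq_one.mp hS1
  have := good_empty (K := ℂ) d a1 a2 a3 a4 a5 _ M (fun b => d + 1 - b) L' le_rfl
    (Inv.init d _) (by
      intro x hx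
      exact hms x (by rw [hSL]; exact Multiset.mem_add.mpr (Or.inr hx)))
    (by
      intro x hx
      refine ⟨hSx a1 (by simp) x hx, hSx a2 (by simp) x hx, hSx a3 (by simp) x hx,
        hSx a4 (by simp) x hx, hSx a5 (by simp) x hx⟩)
    (by
      change (tri d).card ≤ _
      omega)
  change Good ℂ (tri d) _ (tri d).card at this
  rw [hSL]
  exact this

/-- splitting a multiset greedily -/
lemma split_greedy (M : ℕ) (X : ℕ) (ms : Multiset ℕ) : (∀ m ∈ ms, m ≤ M) → X ≤ (ms.map kk).sum →
    ∃ A B : Multiset ℕ, ms = A + B ∧ X ≤ (B.map kk).sum ∧ (B.map kk).sum ≤ X + kk M := by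
  induction ms using Multiset.induction_on with
  | empty =>
    intro _ h
    refine ⟨0, 0, by simp, h, by simp⟩
  | cons a s ih =>
    intro hM h
    rw [Multiset.map_cons, Multiset.sum_cons] at h
    by_cases hX : X ≤ (s.map kk).sum
    · obtain ⟨A, B, h1, h2, h3⟩ := ih (fun m hm => hM m (Multiset.mem_cons_of_mem hm)) hX
      exact ⟨a ::ₘ A, B, by rw [h1, Multiset.cons_add], h2, h3⟩
    · refine ⟨0, a ::ₘ s, by simp, ?_, ?_⟩
      · rw [Multiset.map_cons, Multiset.sum_cons]; exact h
      · rw [Multiset.map_cons, Multiset.sum_cons]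
        have := kk_mono (hM a (Multiset.mem_cons_self _ _))
        omega

/-- the region `i + k j ≤ k p` -/
def reg (k p : ℕ) : Finset (ℕ × ℕ) := box (p + 1) (fun b => k * (p - b) + 1)

lemma mem_reg {k p : ℕ} {e : ℕ × ℕ} : e ∈ reg k p ↔ e.2 ≤ p ∧ e.1 ≤ k * (p - e.2) := by
  unfold reg; rw [mem_box]; omega

lemma reg_one (p : ℕ) : reg 1 p = tri p := by
  ext e
  rw [mem_reg, mem_tri]
  omega

/-- emptiness on the weighted triangle -/
lemma good_reg {p M : ℕ} : ∀ (k : ℕ) (ms : Multiset ℕ), (∀ m ∈ ms, m ≤ M) →
    (k + 1) * ((tri p).card + 6 * kk M) ≤ (ms.map kk).sum →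
    Good ℂ (reg (k + 1) p) ms (reg (k + 1) p).card := by
  classical
  intro k
  induction k with
  | zero =>
    intro ms hms h
    rw [Nat.zero_add, reg_one]
    apply good_tri_empty hms
    omega
  | succ k ih =>
    intro ms hms h
    obtain ⟨A, B, hAB, hB1, hB2⟩ := split_greedy M ((tri p).card + 5 * kk M) ms hms (by
      have : (k + 1 + 1) * ((tri p).card + 6 * kk M) =
        (k + 1) * ((tri p).card + 6 * kk M) + ((tri p).card + 6 * kk M) := by ring
      omega)
    have hA : ∀ m ∈ A, m ≤ M := fun m hm => hms m (by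
      rw [hAB]; exact Multiset.mem_add.mpr (Or.inl hm))
    have hB : ∀ m ∈ B, m ≤ M := fun m hm => hms m (by
      rw [hAB]; exact Multiset.mem_add.mpr (Or.inr hm))
    have hsum : (ms.map kk).sum = (A.map kk).sum + (B.map kk).sum := by
      rw [hAB, Multiset.map_add, Multiset.sum_add]
    have gA := ih A hA (by
      have : (k + 1 + 1) * ((tri p).card + 6 * kk M) =
        (k + 1) * ((tri p).card + 6 * kk M) + ((tri p).card + 6 * kk M) := by ring
      omega)
    have gB := good_tri_empty hB hB1
    have gB1 : Good ℂ (idx p) B (idx p).card := gB.of_subset (by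
      intro e he
      rw [mem_idx] at he
      rw [mem_tri]
      omega)
    -- reflection
    have gA1 := Pool.Agent.helper7.Hex.good_hflip (N := (k + 1) * p) (by
      intro e he
      rw [mem_reg] at he
      exact he.2.trans (Nat.mul_le_mul_left _ (Nat.sub_le _ _))) gA
    have gB2 := gB1.shift ((k + 1) * p + 1)
    set RA := (reg (k + 1) p).image fun e => ((k + 1) * p - e.1, e.2) with hRA
    set RB := (idx p).image fun e => (e.1 + ((k + 1) * p + 1), e.2) with hRB
    have hRBcard : RB.card = (idx p).card := by
      rw [hRB]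
      apply Finset.card_image_of_injective
      intro a b hab
      simp only [Prod.mk.injEq] at hab
      ext
      · omega
      · exact hab.2
    have hRAcard : RA.card = (reg (k + 1) p).card := by
      rw [hRA]
      apply Finset.card_image_of_injOn
      intro a ha b hb hab
      have h1 := (mem_reg.mp ha)
      have h2 := (mem_reg.mp hb)
      have h3 := Nat.mul_le_mul_left (k + 1) (Nat.sub_le p a.2)
      have h4 := Nat.mul_le_mul_left (k + 1) (Nat.sub_le p b.2)
      simp only [Prod.mk.injEq] at hab
      ext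
      · omega
      · exact hab.2
    have hlex : ∀ e ∈ RB, ∀ e' ∈ RA, e'.1 < e.1 ∨ (e'.1 = e.1 ∧ e'.2 < e.2) := by
      intro e he e' he'
      obtain ⟨f, hf, rfl⟩ := Finset.mem_image.mp he
      obtain ⟨f', hf', rfl⟩ := Finset.mem_image.mp he'
      left
      simp only
      omega
    have hdisj : Disjoint RB RA := by
      rw [Finset.disjoint_left]
      intro e he he'
      have := hlex e he e he'
      omega
    rw [← hRBcard] at gB2
    have g := Good.split hlex gB2 gA1
    rw [← hRAcard, ← Finset.card_union_of_disjoint hdisj] at g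
    have himg : RB ∪ RA = (reg (k + 1 + 1) p).image fun e => (e.1 + (k + 1) * e.2, e.2) := by
      ext e
      rw [Finset.mem_union, hRA, hRB, Finset.mem_image, Finset.mem_image, Finset.mem_image]
      constructor
      · rintro (⟨f, hf, rfl⟩ | ⟨f, hf, rfl⟩)
        · rw [mem_idx] at hf
          have h5 : (k + 1) * f.2 + (k + 1) * (p - f.2) = (k + 1) * p := by
            rw [← Nat.mul_add]; congr 1; omega
          refine ⟨(f.1 + ((k + 1) * p + 1) - (k + 1) * f.2, f.2), ?_, ?_⟩
          · rw [mem_reg]
            simp only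
            refine ⟨by omega, ?_⟩
            have h6 : (k + 1 + 1) * (p - f.2) = (k + 1) * (p - f.2) + (p - f.2) := by ring
            omega
          · ext
            · simp only; omega
            · rfl
        · rw [mem_reg] at hf
          have h5 : (k + 1) * f.2 + (k + 1) * (p - f.2) = (k + 1) * p := by
            rw [← Nat.mul_add]; congr 1; omega
          refine ⟨((k + 1) * (p - f.2) - f.1, f.2), ?_, ?_⟩
          · rw [mem_reg]
            simp only
            refine ⟨hf.1, ?_⟩
            have h6 : (k + 1 + 1) * (p - f.2) = (k + 1) * (p - f.2) + (p - f.2) := by ring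
            omega
          · ext
            · simp only; omega
            · rfl
      · rintro ⟨f, hf, rfl⟩
        rw [mem_reg] at hf
        have h5 : (k + 1) * f.2 + (k + 1) * (p - f.2) = (k + 1) * p := by
          rw [← Nat.mul_add]; congr 1; omega
        have h6 : (k + 1 + 1) * (p - f.2) = (k + 1) * (p - f.2) + (p - f.2) := by ring
        by_cases h7 : f.1 ≤ (k + 1) * (p - f.2)
        · right
          refine ⟨((k + 1) * (p - f.2) - f.1, f.2), ?_, ?_⟩
          · rw [mem_reg]
            simp only
            exact ⟨hf.1, Nat.sub_le _ _⟩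
          · ext
            · simp only; omega
            · rfl
        · left
          refine ⟨(f.1 - ((k + 1) * (p - f.2) + 1), f.2), ?_, ?_⟩
          · rw [mem_idx]
            simp only
            omega
          · ext
            · simp only; omega
            · rfl
    have hcard2 : (RB ∪ RA).card = (reg (k + 1 + 1) p).card := by
      rw [himg]
      apply Finset.card_image_of_injective
      intro a b hab
      simp only [Prod.mk.injEq] at hab
      obtain ⟨h8, h9⟩ := hab
      rw [h9] at h8
      ext
      · omega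
      · exact h9
    rw [hcard2, himg] at g
    have g2 := good_unshear_iter (k + 1) g
    rw [hAB, add_comm A B]
    exact g2

end Pool.Agent.helper7.SC
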